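import Mathlib

/-!
# A random set of pieces
-/

set_option autoImplicit false

open Finset

namespace Pool.Agent.TH483.Io

/-- the indices whose set is contained in `U` -/
def inU {P ι : Type} [Fintype ι] [DecidableEq P] (R : ι → Finset P) (U : Finset P) : Finset ι :=
  univ.filter fun i => R i ⊆ U

/-- the indices whose set is disjoint from `U` -/
def outU {P ι : Type} [Fintype ι] [DecidableEq P] (O : ι → Finset P) (U : Finset P) : Finset ι :=
  univ.filter fun j => Disjoint (O j) U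

lemma count_U {P : Type} [DecidableEq P] (Q R O : Finset P) (hR : R ⊆ Q) (hO : O ⊆ Q)
    (hd : Disjoint R O) :
    (Q.powerset.filter fun U => R ⊆ U ∧ Disjoint O U).card = 2 ^ (Q.card - O.card - R.card) := by
  have h1 : (Q.powerset.filter fun U => R ⊆ U ∧ Disjoint O U) = Finset.Icc R (Q \ O) := by
    ext U
    simp only [mem_filter, mem_powerset, mem_Icc]
    constructor
    · rintro ⟨h1, h2, h3⟩
      refine ⟨h2, fun x hx => mem_sdiff.2 ⟨h1 hx, fun hx' => ?_⟩⟩
      exact (Finset.disjoint_left.1 h3) hx' hx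
    · rintro ⟨h1, h2⟩
      refine ⟨fun x hx => (mem_sdiff.1 (h2 hx)).1, h1, ?_⟩
      rw [Finset.disjoint_left]
      intro x hx hx'
      exact (mem_sdiff.1 (h2 hx')).2 hx
  rw [h1, Finset.card_Icc_finset, card_sdiff_of_subset hO]
  intro x hx
  exact mem_sdiff.2 ⟨hR hx, fun hx' => (Finset.disjoint_left.1 hd) hx hx'⟩

lemma two_pow_ge (q c x : ℕ) (hx : x ≤ q) :
    (2 : ℤ) ^ q * (1 + c - x) ≤ 2 ^ c * 2 ^ (q - x) := by
  rcases le_or_gt x c with h | h
  · obtain ⟨d, rfl⟩ := Nat.exists_eq_add_of_le h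
    obtain ⟨e, rfl⟩ := Nat.exists_eq_add_of_le hx
    have h1 : x + e - x = e := by omega
    rw [h1]
    have h2 : (1 + ((x + d : ℕ) : ℤ) - x) = 1 + d := by push_cast; ring
    rw [h2]
    have h3 : (1 + (d : ℤ)) ≤ 2 ^ d := by
      have : d + 1 ≤ 2 ^ d := Nat.lt_two_pow_self
      have h4 : ((d + 1 : ℕ) : ℤ) ≤ ((2 ^ d : ℕ) : ℤ) := by exact_mod_cast this
      push_cast at h4
      linarith
    calc (2 : ℤ) ^ (x + e) * (1 + d) ≤ 2 ^ (x + e) * 2 ^ d :=
          mul_le_mul_of_nonneg_left h3 (by positivity)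
      _ = 2 ^ (x + d) * 2 ^ e := by ring
  · have h1 : (1 + (c : ℤ) - x) ≤ 0 := by
      have : (c : ℤ) + 1 ≤ x := by exact_mod_cast h
      linarith
    have h2 : (2 : ℤ) ^ q * (1 + c - x) ≤ 0 :=
      mul_nonpos_of_nonneg_of_nonpos (by positivity) h1
    exact h2.trans (by positivity)

/-- averaging over all sets of pieces -/
theorem avg {P : Type} [DecidableEq P] {ι κ : Type} [Fintype ι] [Fintype κ]
    (Q : Finset P) (R : ι → Finset P) (O : κ → Finset P) (hR : ∀ i, R i ⊆ Q)
    (hO : ∀ j, O j ⊆ Q) (n c : ℕ) (hι : Fintype.card ι = n) (hκ : Fintype.card κ = n)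
    (hc : ∑ i, (R i).card + ∑ j, (O j).card ≤ c * n)
    (hI : 2 * (c + 1) * (univ.filter fun p : ι × κ => ¬ Disjoint (R p.1) (O p.2)).card ≤ n ^ 2) :
    ∃ U ⊆ Q, n ^ 2 ≤ 2 ^ (c + 1) * ((inU R U).card * (outU O U).card) := by
  classical
  by_contra hcon
  push Not at hcon
  -- sum over all U
  have hsum : ∑ U ∈ Q.powerset, (((inU R U).card * (outU O U).card : ℕ) : ℤ) =
      ∑ p : ι × κ, (((Q.powerset.filter fun U => R p.1 ⊆ U ∧ Disjoint (O p.2) U).card : ℕ) : ℤ) := by
    have h1 : ∀ U, (inU R U).card * (outU O U).card =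
        (univ.filter fun p : ι × κ => R p.1 ⊆ U ∧ Disjoint (O p.2) U).card := by
      intro U
      rw [← card_product]
      congr 1
      ext p
      simp [inU, outU]
    rw [← Nat.cast_sum, ← Nat.cast_sum]
    congr 1
    simp only [h1]
    simp only [card_filter]
    rw [Finset.sum_comm]
  set D := univ.filter (fun p : ι × κ => Disjoint (R p.1) (O p.2)) with hD
  set Nd := univ.filter (fun p : ι × κ => ¬ Disjoint (R p.1) (O p.2)) with hNd
  have hDN : D.card + Nd.card = n ^ 2 := by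
    rw [hD, hNd, Finset.card_filter_add_card_filter_not, card_univ, Fintype.card_prod, hι, hκ, sq]
  -- lower bound
  have hlow : (2 : ℤ) ^ Q.card * (∑ p ∈ D, (1 + (c : ℤ) - ((R p.1).card + (O p.2).card : ℕ))) ≤
      2 ^ c * ∑ p : ι × κ,
        (((Q.powerset.filter fun U => R p.1 ⊆ U ∧ Disjoint (O p.2) U).card : ℕ) : ℤ) := by
    calc (2 : ℤ) ^ Q.card * (∑ p ∈ D, (1 + (c : ℤ) - ((R p.1).card + (O p.2).card : ℕ)))
        = ∑ p ∈ D, (2 : ℤ) ^ Q.card * (1 + (c : ℤ) - ((R p.1).card + (O p.2).card : ℕ)) := by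
          rw [Finset.mul_sum]
      _ ≤ ∑ p ∈ D, 2 ^ c *
          (((Q.powerset.filter fun U => R p.1 ⊆ U ∧ Disjoint (O p.2) U).card : ℕ) : ℤ) := by
          apply Finset.sum_le_sum
          intro p hp
          have hd : Disjoint (R p.1) (O p.2) := (mem_filter.1 hp).2
          rw [count_U Q _ _ (hR p.1) (hO p.2) hd]
          have hx : (R p.1).card + (O p.2).card ≤ Q.card := by
            rw [← card_union_of_disjoint hd]
            exact card_le_card (union_subset (hR _) (hO _))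
          have := two_pow_ge Q.card c ((R p.1).card + (O p.2).card) hx
          push_cast at this ⊢
          have e : Q.card - (O p.2).card - (R p.1).card =
              Q.card - ((R p.1).card + (O p.2).card) := by omega
          rw [e]
          exact this
      _ ≤ ∑ p : ι × κ, 2 ^ c *
          (((Q.powerset.filter fun U => R p.1 ⊆ U ∧ Disjoint (O p.2) U).card : ℕ) : ℤ) := by
          apply Finset.sum_le_sum_of_subset_of_nonneg (subset_univ _)
          intro p _ _
          positivity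
      _ = _ := by rw [Finset.mul_sum]
  have hx : ∑ p ∈ D, (((R p.1).card + (O p.2).card : ℕ) : ℤ) ≤ c * n ^ 2 := by
    have h1 : ∑ p ∈ D, ((R p.1).card + (O p.2).card) ≤
        ∑ p : ι × κ, ((R p.1).card + (O p.2).card) :=
      Finset.sum_le_sum_of_subset (subset_univ _)
    have h2 : ∑ p : ι × κ, ((R p.1).card + (O p.2).card) =
        n * (∑ i, (R i).card + ∑ j, (O j).card) := by
      rw [Fintype.sum_prod_type]
      simp only [Finset.sum_add_distrib, Finset.sum_const, card_univ, hι, hκ, smul_eq_mul]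
      rw [mul_add]
      congr 1
      rw [← Finset.mul_sum]
    rw [h2] at h1
    have h3 : n * (∑ i, (R i).card + ∑ j, (O j).card) ≤ n * (c * n) := Nat.mul_le_mul_left _ hc
    have h4 : ∑ p ∈ D, ((R p.1).card + (O p.2).card) ≤ c * n ^ 2 :=
      (h1.trans h3).trans (le_of_eq (by ring))
    exact_mod_cast h4
  have hmain : (n : ℤ) ^ 2 ≤ 2 * ∑ p ∈ D, (1 + (c : ℤ) - ((R p.1).card + (O p.2).card : ℕ)) := by
    rw [Finset.sum_sub_distrib, Finset.sum_const, nsmul_eq_mul]
    have h1 : (D.card : ℤ) + Nd.card = (n : ℤ) ^ 2 := by exact_mod_cast hDN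
    have h2 : 2 * ((c : ℤ) + 1) * Nd.card ≤ (n : ℤ) ^ 2 := by exact_mod_cast hI
    have h3 : (D.card : ℤ) = (n : ℤ) ^ 2 - Nd.card := by linarith
    rw [h3]
    nlinarith
  -- upper bound from the contradiction hypothesis
  rw [← hsum] at hlow
  have hup : 2 ^ (c + 1) * ∑ U ∈ Q.powerset, (((inU R U).card * (outU O U).card : ℕ) : ℤ) <
      2 ^ Q.card * (n : ℤ) ^ 2 := by
    rw [Finset.mul_sum]
    have h1 : ∑ U ∈ Q.powerset, (2 : ℤ) ^ (c + 1) * (((inU R U).card * (outU O U).card : ℕ) : ℤ) <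
        ∑ U ∈ Q.powerset, (n : ℤ) ^ 2 := by
      apply Finset.sum_lt_sum_of_nonempty ⟨∅, by simp⟩
      intro U hU
      have := hcon U (mem_powerset.1 hU)
      exact_mod_cast this
    rw [Finset.sum_const, card_powerset, nsmul_eq_mul] at h1
    push_cast at h1 ⊢
    exact h1
  have h5 : (2 : ℤ) ^ Q.card * (n : ℤ) ^ 2 ≤
      2 ^ Q.card * (2 * ∑ p ∈ D, (1 + (c : ℤ) - ((R p.1).card + (O p.2).card : ℕ))) :=
    mul_le_mul_of_nonneg_left hmain (by positivity)
  have h6 : (2 : ℤ) ^ (c + 1) = 2 * 2 ^ c := by ring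
  rw [h6] at hup
  nlinarith

end Pool.Agent.TH483.Io
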