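import Mathlib

/-!
# Linear circuits with freely read inputs and output gates

Definitions only.
-/

set_option autoImplicit false

open Finset

namespace Pool.Agent.TH483.Io

/-- A linear circuit over the field `F` with `n` inputs, `size` inner gates (numbered so that edges
go from smaller to larger numbers) and `n` output gates, which feed no other gate.
`ig g i`: scalar on the edge from the input `i` to the inner gate `g`;
`gg g h`: scalar on the edge from the inner gate `h` to the inner gate `g`;
`og j h`: scalar on the edge from the inner gate `h` to the output gate `j`;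
`oi j i`: scalar on the edge from the input `i` to the output gate `j`;
the scalar `0` means that there is no edge. Inputs may be read by any number of gates and output
gates may have any number of predecessors. -/
structure IOCircuit (F : Type) [Field F] (n : ℕ) : Type where
  size : ℕ
  ig : Fin size → Fin n → F
  gg : Fin size → Fin size → F
  acyclic : ∀ g h, gg g h ≠ 0 → h < g
  og : Fin n → Fin size → F
  oi : Fin n → Fin n → F

variable {F : Type} [Field F] {n : ℕ}

/-- `form g` is the linear form (the vector of its coefficients) computed at the inner gate `g`. -/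
def IOCircuit.IsForms (C : IOCircuit F n) (form : Fin C.size → Fin n → F) : Prop :=
  ∀ g i, form g i = C.ig g i + ∑ h, C.gg g h * form h i

/-- The circuit computes `x ↦ B x`: the output gate `j` computes the `j`-th row of `B`. -/
def IOCircuit.Computes (C : IOCircuit F n) (B : Matrix (Fin n) (Fin n) F) : Prop :=
  ∃ form : Fin C.size → Fin n → F, C.IsForms form ∧
    ∀ j i, B j i = C.oi j i + ∑ h, C.og j h * form h i

open Classical in
/-- The number of edges leaving the inputs. -/
noncomputable def IOCircuit.inputEdges (C : IOCircuit F n) : ℕ :=
  (univ.filter fun e : Fin C.size × Fin n => C.ig e.1 e.2 ≠ 0).card +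
    (univ.filter fun e : Fin n × Fin n => C.oi e.1 e.2 ≠ 0).card

open Classical in
/-- The number of edges entering the output gates. -/
noncomputable def IOCircuit.outputEdges (C : IOCircuit F n) : ℕ :=
  (univ.filter fun e : Fin n × Fin C.size => C.og e.1 e.2 ≠ 0).card +
    (univ.filter fun e : Fin n × Fin n => C.oi e.1 e.2 ≠ 0).card

/-- The undirected graph on the inner gates: the inputs and the output gates are deleted. -/
def IOCircuit.adj (C : IOCircuit F n) (g h : Fin C.size) : Prop :=
  C.gg g h ≠ 0 ∨ C.gg h g ≠ 0

/-- The graph with adjacency relation `adj` has a tree decomposition of width at most `t`. The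
tree is rooted at node `0` and given by the parent function `par`, where `par i < i`; the nodes
whose bags contain a given vertex form a nonempty subtree, i.e. exactly one of them is the root
or has a parent whose bag does not contain the vertex. -/
def HasTreeDec {V : Type} (adj : V → V → Prop) (t : ℕ) : Prop :=
  ∃ (T : ℕ) (par : Fin (T + 1) → Fin (T + 1)) (bag : Fin (T + 1) → Finset V),
    (∀ i, 0 < i → par i < i) ∧ (∀ i, (bag i).card ≤ t + 1) ∧
    (∀ v, ∃! i, v ∈ bag i ∧ (i = 0 ∨ v ∉ bag (par i))) ∧
    (∀ u v, adj u v → ∃ i, u ∈ bag i ∧ v ∈ bag i)

/-- All minors of all orders are nonzero. -/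
def MinorsNonzero (A : Matrix (Fin n) (Fin n) F) : Prop :=
  ∀ (k : ℕ) (p q : Fin k → Fin n), Function.Injective p → Function.Injective q →
    (Matrix.of fun a b => A (p a) (q b)).det ≠ 0

/-- The Hilbert matrix, with entries `1 / (i + j + 1)`. -/
def hilbert (F : Type) [Field F] (n : ℕ) : Matrix (Fin n) (Fin n) F :=
  Matrix.of fun i j => (((i + j + 1 : ℕ) : F))⁻¹

end Pool.Agent.TH483.Io
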