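import Mathlib
import Pool.Agent.H468R2.Frag.TreeSepW

/-!
# Cutting a graph of small treewidth into many light pieces
-/

set_option autoImplicit false

open Finset

namespace Pool.Agent.TH483.Io

open Pool.Agent.H468R2.Frag (HasTreeDec treeDec_separator_weighted)

/-- A graph with a tree decomposition of width `t` and vertex weights `μ` can be cut into pieces of
weight at most `β / α` by deleting at most `3 (t + 1) α μ(A) / β` vertices. -/
theorem multi {V : Type} [Fintype V] [DecidableEq V] (adj : V → V → Prop) (t : ℕ)
    (h : HasTreeDec adj t) (μ : V → ℕ) (α β : ℕ) (A : Finset V) :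
    ∃ (S : Finset V) (κ : V → ℕ), S ⊆ A ∧
      (∀ u v, u ∈ A → v ∈ A → u ∉ S → v ∉ S → adj u v → κ u = κ v) ∧
      (∀ p, α * ∑ v ∈ A.filter (fun v => v ∉ S ∧ κ v = p), μ v ≤ β) ∧
      β * S.card ≤ 3 * (t + 1) * (α * ∑ v ∈ A, μ v) := by
  classical
  -- stronger statement
  suffices H : ∀ N : ℕ, ∀ A : Finset V, ∑ v ∈ A, μ v ≤ N →
      ∃ (S : Finset V) (κ : V → ℕ), S ⊆ A ∧
      (∀ u v, u ∈ A → v ∈ A → u ∉ S → v ∉ S → adj u v → κ u = κ v) ∧
      (∀ p, α * ∑ v ∈ A.filter (fun v => v ∉ S ∧ κ v = p), μ v ≤ β) ∧
      (S = ∅ ∨ β * S.card + (t + 1) * β ≤ 3 * (t + 1) * (α * ∑ v ∈ A, μ v)) by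
    obtain ⟨S, κ, h1, h2, h3, h4⟩ := H _ A le_rfl
    refine ⟨S, κ, h1, h2, h3, ?_⟩
    rcases h4 with h4 | h4
    · rw [h4]; simp
    · omega
  intro N
  induction N using Nat.strong_induction_on with
  | _ N ih =>
    intro A hA
    by_cases hsmall : α * ∑ v ∈ A, μ v ≤ β
    · refine ⟨∅, fun _ => 0, by simp, fun _ _ _ _ _ _ _ => rfl, fun p => ?_, Or.inl rfl⟩
      refine le_trans (Nat.mul_le_mul_left α ?_) hsmall
      exact Finset.sum_le_sum_of_subset (filter_subset _ _)
    · push Not at hsmall
      obtain ⟨S, side, hS1, hS2, hS3, hS4⟩ := treeDec_separator_weighted adj t h μ A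
      set W := ∑ v ∈ A, μ v with hW
      have hWpos : 0 < W := by
        rcases Nat.eq_zero_or_pos W with h0 | h0
        · rw [h0] at hsmall; simp at hsmall
        · exact h0
      set A1 := A.filter (fun v => v ∉ S ∧ side v = true) with hA1
      set A2 := A.filter (fun v => v ∉ S ∧ side v = false) with hA2
      have hw1 := hS4 true
      have hw2 := hS4 false
      have hsum : ∑ v ∈ A1, μ v + ∑ v ∈ A2, μ v ≤ W := by
        rw [← Finset.sum_union]
        · apply Finset.sum_le_sum_of_subset
          intro v hv
          rcases mem_union.1 hv with h | h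
          · exact (mem_filter.1 h).1
          · exact (mem_filter.1 h).1
        · rw [Finset.disjoint_left]
          intro v hv hv'
          rw [hA1, mem_filter] at hv
          rw [hA2, mem_filter] at hv'
          rw [hv.2.2] at hv'
          exact Bool.noConfusion hv'.2.2
      set W1 := ∑ v ∈ A1, μ v with hW1
      set W2 := ∑ v ∈ A2, μ v with hW2
      have hl1 : W1 < N := by
        have : 3 * W1 ≤ 2 * W := hw1
        omega
      have hl2 : W2 < N := by
        have : 3 * W2 ≤ 2 * W := hw2
        omega
      obtain ⟨S1, κ1, a1, a2, a3, a4⟩ := ih W1 hl1 A1 le_rfl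
      obtain ⟨S2, κ2, b1, b2, b3, b4⟩ := ih W2 hl2 A2 le_rfl
      refine ⟨S ∪ (S1 ∪ S2), fun v => if side v = true then 2 * κ1 v else 2 * κ2 v + 1,
        ?_, ?_, ?_, ?_⟩
      · intro v hv
        rcases mem_union.1 hv with h | h
        · exact hS1 h
        · rcases mem_union.1 h with h | h
          · exact (mem_filter.1 (a1 h)).1
          · exact (mem_filter.1 (b1 h)).1
      · intro u v hu hv hu' hv' huv
        simp only [mem_union, not_or] at hu' hv'
        have hs := hS3 u v hu hv hu'.1 hv'.1 huv
        show (if side u = true then 2 * κ1 u else 2 * κ2 u + 1) =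
          if side v = true then 2 * κ1 v else 2 * κ2 v + 1
        rw [hs]
        by_cases hv1 : side v = true
        · have hu1 : side u = true := by rw [hs, hv1]
          rw [if_pos hv1, if_pos hv1]
          rw [a2 u v (mem_filter.2 ⟨hu, hu'.1, hu1⟩) (mem_filter.2 ⟨hv, hv'.1, hv1⟩)
            hu'.2.1 hv'.2.1 huv]
        · rw [if_neg hv1, if_neg hv1]
          have hv2 : side v = false := by simpa using hv1
          have hu2 : side u = false := by rw [hs, hv2]
          rw [b2 u v (mem_filter.2 ⟨hu, hu'.1, hu2⟩) (mem_filter.2 ⟨hv, hv'.1, hv2⟩)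
            hu'.2.2 hv'.2.2 huv]
      · intro p
        rcases Nat.even_or_odd' p with ⟨q, hq | hq⟩
        · refine le_trans (Nat.mul_le_mul_left α ?_) (a3 q)
          apply Finset.sum_le_sum_of_subset
          intro v hv
          simp only [mem_filter, mem_union, not_or] at hv
          obtain ⟨hvA, ⟨hvS, hv1, hv2⟩, hvk⟩ := hv
          by_cases hs : side v = true
          · rw [if_pos hs] at hvk
            refine mem_filter.2 ⟨mem_filter.2 ⟨hvA, hvS, hs⟩, hv1, ?_⟩
            omega
          · rw [if_neg hs] at hvk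
            omega
        · refine le_trans (Nat.mul_le_mul_left α ?_) (b3 q)
          apply Finset.sum_le_sum_of_subset
          intro v hv
          simp only [mem_filter, mem_union, not_or] at hv
          obtain ⟨hvA, ⟨hvS, hv1, hv2⟩, hvk⟩ := hv
          by_cases hs : side v = true
          · rw [if_pos hs] at hvk
            omega
          · rw [if_neg hs] at hvk
            refine mem_filter.2 ⟨mem_filter.2 ⟨hvA, hvS, by simpa using hs⟩, hv2, ?_⟩
            omega
      · right
        have hc : (S ∪ (S1 ∪ S2)).card ≤ (t + 1) + (S1.card + S2.card) :=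
          (card_union_le _ _).trans (add_le_add hS2 (card_union_le _ _))
        have hW12 : α * W1 + α * W2 ≤ α * W := by
          rw [← mul_add]; exact Nat.mul_le_mul_left _ hsum
        have h31 : 3 * (α * W1) ≤ 2 * (α * W) := by
          have : 3 * W1 ≤ 2 * W := hw1
          nlinarith
        have h32 : 3 * (α * W2) ≤ 2 * (α * W) := by
          have : 3 * W2 ≤ 2 * W := hw2
          nlinarith
        have hc' : β * (S ∪ (S1 ∪ S2)).card ≤ β * (t + 1) + β * S1.card + β * S2.card := by
          calc β * (S ∪ (S1 ∪ S2)).card ≤ β * ((t + 1) + (S1.card + S2.card)) :=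
                Nat.mul_le_mul_left _ hc
            _ = _ := by ring
        have e : (t + 1) * β = β * (t + 1) := by ring
        have hb : β * (t + 1) ≤ (t + 1) * (α * W) := by
          rw [← e]; exact Nat.mul_le_mul_left _ hsmall.le
        have k1 : (t + 1) * (3 * (α * W1)) ≤ (t + 1) * (2 * (α * W)) := Nat.mul_le_mul_left _ h31
        have k2 : (t + 1) * (3 * (α * W2)) ≤ (t + 1) * (2 * (α * W)) := Nat.mul_le_mul_left _ h32
        have k3 : (t + 1) * (α * W1 + α * W2) ≤ (t + 1) * (α * W) := Nat.mul_le_mul_left _ hW12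
        have f0 : 3 * (t + 1) * (α * W) = 3 * ((t + 1) * (α * W)) := by ring
        have f1 : 3 * (t + 1) * (α * W1) = 3 * ((t + 1) * (α * W1)) := by ring
        have f2 : 3 * (t + 1) * (α * W2) = 3 * ((t + 1) * (α * W2)) := by ring
        have g1 : (t + 1) * (3 * (α * W1)) = 3 * ((t + 1) * (α * W1)) := by ring
        have g2 : (t + 1) * (3 * (α * W2)) = 3 * ((t + 1) * (α * W2)) := by ring
        have g0 : (t + 1) * (2 * (α * W)) = 2 * ((t + 1) * (α * W)) := by ring
        have g3 : (t + 1) * (α * W1 + α * W2) = (t + 1) * (α * W1) + (t + 1) * (α * W2) := by ring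
        rw [g1, g0] at k1
        rw [g2, g0] at k2
        rw [g3] at k3
        rw [f1, e] at a4
        rw [f2, e] at b4
        rw [f0, e]
        generalize (t + 1) * (α * W) = Y at *
        generalize (t + 1) * (α * W1) = Y1 at *
        generalize (t + 1) * (α * W2) = Y2 at *
        generalize hX : β * (t + 1) = X at *
        have s0 : S1 = ∅ → β * S1.card = 0 := fun h => by rw [h]; simp
        have s0' : S2 = ∅ → β * S2.card = 0 := fun h => by rw [h]; simp
        generalize β * S1.card = z1 at *
        generalize β * S2.card = z2 at *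
        generalize β * (S ∪ (S1 ∪ S2)).card = z at *
        clear e f0 f1 f2 g1 g2 g0 g3
        rcases a4 with a4 | a4
        · have y1 := s0 a4
          rcases b4 with b4 | b4
          · have y2 := s0' b4
            omega
          · omega
        · rcases b4 with b4 | b4
          · have y2 := s0' b4
            omega
          · omega

end Pool.Agent.TH483.Io
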