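import Mathlib
import Pool.Agent.TH483.Io.Circ
import Pool.Agent.TH708.Fat.Hilb

/-!
# The asymptotic form of the bound
-/

set_option autoImplicit false

open Finset

namespace Pool.Agent.TH483.Io

lemma logb_le_sqrt (z : ℝ) (hz : 1 ≤ z) : Real.logb 2 z ≤ 3 * Real.sqrt z := by
  have h2 : (0 : ℝ) < Real.log 2 := Real.log_pos (by norm_num)
  have h3 : (0.6931471803 : ℝ) < Real.log 2 := Real.log_two_gt_d9
  have hs : 0 < Real.sqrt z := Real.sqrt_pos.2 (by linarith)
  have h1 : Real.log z = 2 * Real.log (Real.sqrt z) := by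
    rw [Real.log_sqrt (by linarith)]; ring
  have h4 : Real.log (Real.sqrt z) ≤ Real.sqrt z - 1 := Real.log_le_sub_one_of_pos hs
  rw [Real.logb, div_le_iff₀ h2, h1]
  nlinarith

lemma real_step (ε : ℝ) (hε : 0 < ε) (hε1 : ε ≤ 1) (y x : ℝ) (hy : (20 / ε) ^ 2 ≤ y)
    (hx0 : 0 ≤ x) (hyx : y ≤ x + 4 + 3 * Real.logb 2 (x + 2)) : (1 - ε) * y ≤ x := by
  by_contra hcon
  push Not at hcon
  have h20 : 20 ≤ 20 / ε := by
    rw [le_div_iff₀ hε]; linarith
  have hy400 : 400 ≤ y := by nlinarith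
  have hxy : x ≤ y := by nlinarith
  have h1 : Real.logb 2 (x + 2) ≤ Real.logb 2 (y + 2) :=
    Real.logb_le_logb_of_le (by norm_num) (by linarith) (by linarith)
  have h2 := logb_le_sqrt (y + 2) (by linarith)
  set u := Real.sqrt (y + 2) with hu
  have hu2 : u ^ 2 = y + 2 := Real.sq_sqrt (by linarith)
  have hu0 : 0 ≤ u := Real.sqrt_nonneg _
  have hu20 : 20 / ε ≤ u := by
    apply Real.le_sqrt_of_sq_le
    linarith
  have h3 : 20 ≤ ε * u := by
    rw [div_le_iff₀ hε] at hu20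
    linarith
  have h4 : 20 * u ≤ ε * u ^ 2 := by nlinarith
  have h5 : 20 ≤ u := by linarith
  have h6 : ε * y = ε * u ^ 2 - 2 * ε := by rw [hu2]; ring
  nlinarith

/-- The asymptotic form. -/
theorem io_asym (ε : ℝ) (hε : 0 < ε) : ∃ K : ℝ, 0 < K ∧ ∀ (F : Type) [Field F] (n : ℕ)
    (C : IOCircuit F n) (A B : Matrix (Fin n) (Fin n) F), MinorsNonzero A →
    C.Computes B → ∀ t : ℕ, HasTreeDec C.adj t →
    K * (t + 1 + (A - B).rank : ℕ) ≤ n →
    (1 - ε) * (n * Real.logb 2 (n / (t + 1 + (A - B).rank : ℕ))) ≤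
      (C.inputEdges + C.outputEdges : ℕ) := by
  set ε' := min ε 1 with hε'
  have hε'0 : 0 < ε' := lt_min hε one_pos
  have hε'1 : ε' ≤ 1 := min_le_right _ _
  refine ⟨2 ^ ((20 / ε') ^ 2), by positivity, ?_⟩
  intro F _ n C A B hA hC t hT hK
  set ρ := (A - B).rank with hρ
  set s := t + 1 + ρ with hs
  set L := C.inputEdges + C.outputEdges with hL
  have hs1 : 1 ≤ s := by omega
  have hs0 : (0 : ℝ) < s := by exact_mod_cast hs1
  have hK1 : (1 : ℝ) ≤ 2 ^ ((20 / ε') ^ 2) := Real.one_le_rpow (by norm_num) (by positivity)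
  have hsn : (s : ℝ) ≤ n := by nlinarith
  have hn0 : (0 : ℝ) < n := lt_of_lt_of_le hs0 hsn
  have hn1 : 1 ≤ n := by
    have : (0 : ℕ) < n := by exact_mod_cast hn0
    omega
  set y := Real.logb 2 (n / s) with hy
  have hy1 : (20 / ε') ^ 2 ≤ y := by
    rw [hy, Real.le_logb_iff_rpow_le (by norm_num) (by positivity), le_div_iff₀ hs0]
    exact hK
  -- the integer `c`
  set c := (L + n - 1) / n with hc
  have hcL : L ≤ c * n := by
    have h1 := Nat.div_add_mod (L + n - 1) n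
    have h2 := Nat.mod_lt (L + n - 1) hn1
    rw [← hc] at h1
    have h3 : n * c = c * n := mul_comm _ _
    omega
  have hcU : c * n ≤ L + n := by
    have h1 := Nat.div_mul_le_self (L + n - 1) n
    rw [← hc] at h1
    omega
  have hmain := io_bound C A B hA hC t hT c hcL
  rw [← hρ] at hmain
  have h1 : n ≤ 2 ^ c * (5 * (c + 1) ^ 3 * s) := by
    refine hmain.trans (Nat.mul_le_mul_left _ ?_)
    have e1 : 2 * ρ ≤ 2 * (c + 1) ^ 3 * s := by
      have : 1 ≤ (c + 1) ^ 3 := Nat.one_le_pow _ _ (Nat.succ_pos c)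
      calc 2 * ρ = 2 * 1 * ρ := by ring
        _ ≤ 2 * (c + 1) ^ 3 * s := by gcongr; omega
    have e2 : 3 * c ^ 2 * (c + 1) * (t + 1) ≤ 3 * (c + 1) ^ 3 * s := by
      calc 3 * c ^ 2 * (c + 1) * (t + 1) ≤ 3 * (c + 1) ^ 2 * (c + 1) * s := by
            gcongr <;> omega
        _ = 3 * (c + 1) ^ 3 * s := by ring
    calc 2 * ρ + 3 * c ^ 2 * (c + 1) * (t + 1) ≤ 2 * (c + 1) ^ 3 * s + 3 * (c + 1) ^ 3 * s :=
          add_le_add e1 e2
      _ = 5 * (c + 1) ^ 3 * s := by ring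
  have h2 : (n : ℝ) / s ≤ 2 ^ c * (5 * (c + 1) ^ 3) := by
    rw [div_le_iff₀ hs0]
    have : (n : ℝ) ≤ 2 ^ c * (5 * (c + 1) ^ 3 * s) := by exact_mod_cast h1
    linarith
  have h3 : y ≤ c + Real.logb 2 5 + 3 * Real.logb 2 (c + 1) := by
    have e1 : y ≤ Real.logb 2 (2 ^ c * (5 * (c + 1) ^ 3)) :=
      Real.logb_le_logb_of_le (by norm_num) (by positivity) h2
    have hc1 : ((c : ℝ) + 1) ≠ 0 := by positivity
    rw [Real.logb_mul (by positivity) (by positivity), Real.logb_mul (by norm_num) (by positivity),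
      Real.logb_pow, Real.logb_pow, Real.logb_self_eq_one (by norm_num)] at e1
    push_cast at e1
    linarith
  have h5 : Real.logb 2 5 ≤ 3 := by
    rw [Real.logb_le_iff_le_rpow (by norm_num) (by norm_num)]
    norm_num
  set x : ℝ := L / n with hx
  have hcx : (c : ℝ) ≤ x + 1 := by
    rw [hx, div_add_one hn0.ne', le_div_iff₀ hn0]
    exact_mod_cast hcU
  have hx0 : 0 ≤ x := by positivity
  have h6 : Real.logb 2 (c + 1) ≤ Real.logb 2 (x + 2) :=
    Real.logb_le_logb_of_le (by norm_num) (by positivity) (by linarith)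
  have h7 := real_step ε' hε'0 hε'1 y x hy1 hx0 (by linarith)
  have hy0 : 0 ≤ y := le_trans (by positivity) hy1
  have h8 : (1 - ε) * y ≤ x := by
    refine le_trans (mul_le_mul_of_nonneg_right ?_ hy0) h7
    have : ε' ≤ ε := min_le_left _ _
    linarith
  calc (1 - ε) * (n * y) = n * ((1 - ε) * y) := by ring
    _ ≤ n * x := mul_le_mul_of_nonneg_left h8 hn0.le
    _ = L := by rw [hx]; field_simp

/-- The Hilbert matrix has nonzero minors in characteristic zero. -/
theorem hilbert_minors (F : Type) [Field F] [CharZero F] (n : ℕ) :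
    MinorsNonzero (hilbert F n) :=
  fun k p q hp hq => Pool.Agent.TH708.Fat.hilbert_minor F n k p q hp hq

end Pool.Agent.TH483.Io
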