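import Mathlib

/-!
# A sparse random set of pieces
-/

set_option autoImplicit false

open Finset

namespace Pool.Agent.TH483.Io

lemma wsum {P : Type} [DecidableEq P] (b : ℤ) (Q R : Finset P) (hR : R ⊆ Q) :
    ∑ U ∈ Q.powerset.filter (fun U => R ⊆ U), b ^ (Q.card - U.card) =
      (1 + b) ^ (Q.card - R.card) := by
  have h1 : Q.powerset.filter (fun U => R ⊆ U) = Finset.Icc R Q := by
    ext U
    simp only [mem_filter, mem_powerset, mem_Icc]
    exact ⟨fun h => ⟨h.2, h.1⟩, fun h => ⟨h.2, h.1⟩⟩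
  rw [h1, Finset.Icc_eq_image_powerset hR, Finset.sum_image]
  · have h2 := Finset.sum_pow_mul_eq_add_pow (1 : ℤ) b (Q \ R)
    rw [card_sdiff_of_subset hR] at h2
    rw [← h2]
    apply Finset.sum_congr rfl
    intro V hV
    rw [mem_powerset] at hV
    have hd : Disjoint R V := by
      rw [Finset.disjoint_left]
      intro x hx hx'
      exact (mem_sdiff.1 (hV hx')).2 hx
    rw [card_union_of_disjoint hd, one_pow, one_mul]
    congr 1
    omega
  · intro V hV V' hV' h
    simp only [coe_powerset, Set.mem_preimage, Set.mem_powerset_iff, coe_subset] at hV hV'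
    have h' : R ∪ V = R ∪ V' := h
    ext x
    constructor
    · intro hx
      have h3 : x ∈ R ∪ V' := h' ▸ mem_union_right _ hx
      rcases mem_union.1 h3 with h4 | h4
      · exact absurd h4 (mem_sdiff.1 (hV hx)).2
      · exact h4
    · intro hx
      have h3 : x ∈ R ∪ V := h'.symm ▸ mem_union_right _ hx
      rcases mem_union.1 h3 with h4 | h4
      · exact absurd h4 (mem_sdiff.1 (hV' hx)).2
      · exact h4

/-- a sparse set of pieces which contains many of the sets `R i` and few of the tails -/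
theorem avg_sparse {P : Type} [DecidableEq P] {ι ε : Type} [Fintype ι]
    (Q : Finset P) (R : ι → Finset P) (hR : ∀ i, R i ⊆ Q) (E : Finset ε) (τ : ε → P)
    (hτ : ∀ e ∈ E, τ e ∈ Q) (n c d : ℕ) (hn : 0 < n) (hc1 : 1 ≤ c) (hd1 : 1 ≤ d)
    (hι : Fintype.card ι = n)
    (hRc : ∑ i, (R i).card ≤ c * n) (hE : E.card ≤ d * n)
    (hB : ∀ p, 16 * c * (E.filter fun e => τ e = p).card ≤ n) :
    ∃ U ⊆ Q, 4 * (E.filter fun e => τ e ∈ U).card ≤ n ∧
      n ≤ 2 * ((c + 1) * (16 * d) ^ c) * (univ.filter fun i => R i ⊆ U).card := by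
  classical
  set q := 16 * d with hq
  set N := Q.card with hN
  set I := univ.filter (fun i => (R i).card ≤ c) with hI
  -- many sets are small
  have hIc : n ≤ (c + 1) * I.card := by
    have h1 : (univ.filter fun i => ¬ (R i).card ≤ c).card * (c + 1) ≤ c * n := by
      refine le_trans ?_ hRc
      rw [← smul_eq_mul, ← Finset.sum_const]
      refine le_trans (Finset.sum_le_sum (g := fun i => (R i).card) ?_)
        (Finset.sum_le_sum_of_subset (filter_subset _ _))
      intro i hi
      have := (mem_filter.1 hi).2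
      omega
    have h2 : I.card + (univ.filter fun i => ¬ (R i).card ≤ c).card = n := by
      rw [hI, Finset.card_filter_add_card_filter_not, card_univ, hι]
    set J := (univ.filter fun i => ¬ (R i).card ≤ c).card with hJ
    have h3 : (c + 1) * I.card + J * (c + 1) = c * n + n := by
      calc (c + 1) * I.card + J * (c + 1) = (c + 1) * (I.card + J) := by ring
        _ = c * n + n := by rw [h2]; ring
    omega
  by_contra hcon
  push Not at hcon
  -- the weighted sum
  let X : Finset P → Finset ι := fun U => I.filter fun i => R i ⊆ U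
  let EU : Finset P → Finset ε := fun U => E.filter fun e => τ e ∈ U
  have hneg : ∀ U ∈ Q.powerset,
      (2 * (((c : ℤ) + 1) * (q : ℤ) ^ c)) * (((X U).card : ℤ) * (n - 4 * (EU U).card)) <
        (n : ℤ) ^ 2 := by
    intro U hU
    by_contra hge
    push Not at hge
    have hn' : (0 : ℤ) < n := by exact_mod_cast hn
    have hX0 : (0 : ℤ) ≤ (X U).card := by positivity
    have hq0 : (0 : ℤ) ≤ 2 * (((c : ℤ) + 1) * (q : ℤ) ^ c) := by positivity
    have h4 : 4 * ((EU U).card : ℤ) ≤ n := by
      by_contra hlt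
      push Not at hlt
      have h5 : ((X U).card : ℤ) * (n - 4 * (EU U).card) ≤ 0 :=
        mul_nonpos_of_nonneg_of_nonpos hX0 (by linarith)
      have h6 := mul_nonpos_of_nonneg_of_nonpos hq0 h5
      nlinarith
    have h4' : 4 * (E.filter fun e => τ e ∈ U).card ≤ n := by exact_mod_cast h4
    have h7 := hcon U (mem_powerset.1 hU) h4'
    have h8 : (X U).card ≤ (univ.filter fun i => R i ⊆ U).card := by
      apply card_le_card
      intro i hi
      exact mem_filter.2 ⟨mem_univ _, (mem_filter.1 hi).2⟩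
    have h9 : 2 * ((c + 1) * q ^ c) * (X U).card < n :=
      lt_of_le_of_lt (Nat.mul_le_mul_left _ h8) h7
    have h10 : 2 * (((c : ℤ) + 1) * (q : ℤ) ^ c) * (X U).card < n := by exact_mod_cast h9
    have h11 : ((X U).card : ℤ) * (n - 4 * (EU U).card) ≤ (X U).card * n :=
      mul_le_mul_of_nonneg_left (by
        have : (0 : ℤ) ≤ (EU U).card := by positivity
        linarith) hX0
    have h12 := mul_le_mul_of_nonneg_left h11 hq0
    nlinarith
  have hb0 : (0 : ℤ) ≤ (q : ℤ) - 1 := by
    have : (1 : ℤ) ≤ q := by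
      have : 1 ≤ q := by omega
      exact_mod_cast this
    linarith
  have hup : ∑ U ∈ Q.powerset, ((q : ℤ) - 1) ^ (N - U.card) *
      ((2 * (((c : ℤ) + 1) * (q : ℤ) ^ c)) * (((X U).card : ℤ) * (n - 4 * (EU U).card))) <
      ∑ U ∈ Q.powerset, ((q : ℤ) - 1) ^ (N - U.card) * (n : ℤ) ^ 2 := by
    apply Finset.sum_lt_sum
    · intro U hU
      exact mul_le_mul_of_nonneg_left (hneg U hU).le (pow_nonneg hb0 _)
    · refine ⟨Q, by simp, ?_⟩
      rw [hN, Nat.sub_self, pow_zero, one_mul, one_mul]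
      exact hneg Q (by simp)
  have hbq : (1 : ℤ) + ((q : ℤ) - 1) = q := by ring
  have htotal : ∑ U ∈ Q.powerset, ((q : ℤ) - 1) ^ (N - U.card) = (q : ℤ) ^ N := by
    have := wsum ((q : ℤ) - 1) Q ∅ (empty_subset _)
    rw [hbq] at this
    simpa using this
  rw [← Finset.sum_mul, htotal] at hup
  -- exchange the sums
  set κ0 : ℤ := 2 * (((c : ℤ) + 1) * (q : ℤ) ^ c) with hκ0
  have hsum : ∑ U ∈ Q.powerset, ((q : ℤ) - 1) ^ (N - U.card) *
      (κ0 * (((X U).card : ℤ) * (n - 4 * (EU U).card))) =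
      κ0 * ∑ i ∈ I, (n * (q : ℤ) ^ (N - (R i).card) -
        4 * ∑ e ∈ E, (q : ℤ) ^ (N - (insert (τ e) (R i)).card)) := by
    have e1 : ∀ U, (((X U).card : ℤ) * (n - 4 * (EU U).card)) =
        ∑ i ∈ I, ((n : ℤ) * (if R i ⊆ U then (1 : ℤ) else 0) -
          4 * ∑ e ∈ E, (if insert (τ e) (R i) ⊆ U then (1 : ℤ) else 0)) := by
      intro U
      have e2 : ((X U).card : ℤ) = ∑ i ∈ I, (if R i ⊆ U then (1 : ℤ) else 0) := by
        simp only [X, card_filter]
        push_cast
        rfl
      have e3 : ((EU U).card : ℤ) = ∑ e ∈ E, (if τ e ∈ U then (1 : ℤ) else 0) := by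
        simp only [EU, card_filter]
        push_cast
        rfl
      rw [e2, e3, Finset.sum_mul]
      apply Finset.sum_congr rfl
      intro i _
      by_cases hi : R i ⊆ U
      · simp only [hi, if_true, insert_subset_iff, and_true, one_mul, mul_one]
      · simp [hi, insert_subset_iff]
    simp only [e1]
    have e4 : ∀ U, ((q : ℤ) - 1) ^ (N - U.card) * (κ0 *
        ∑ i ∈ I, ((n : ℤ) * (if R i ⊆ U then (1 : ℤ) else 0) -
          4 * ∑ e ∈ E, (if insert (τ e) (R i) ⊆ U then (1 : ℤ) else 0))) =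
        κ0 * ∑ i ∈ I,
          ((n : ℤ) * (if R i ⊆ U then ((q : ℤ) - 1) ^ (N - U.card) else 0) -
          4 * ∑ e ∈ E, (if insert (τ e) (R i) ⊆ U then ((q : ℤ) - 1) ^ (N - U.card) else 0)) := by
      intro U
      rw [mul_left_comm]
      congr 1
      rw [Finset.mul_sum]
      apply Finset.sum_congr rfl
      intro i _
      rw [mul_sub]
      congr 1
      · split_ifs <;> ring
      · rw [mul_left_comm]
        congr 1
        rw [Finset.mul_sum]
        apply Finset.sum_congr rfl
        intro e _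
        split_ifs <;> ring
    simp only [e4]
    rw [← Finset.mul_sum]
    congr 1
    rw [Finset.sum_comm]
    apply Finset.sum_congr rfl
    intro i _
    rw [Finset.sum_sub_distrib, ← Finset.mul_sum, ← Finset.mul_sum]
    congr 1
    · congr 1
      rw [← Finset.sum_filter, wsum _ Q (R i) (hR i), hbq]
    · congr 1
      rw [Finset.sum_comm]
      apply Finset.sum_congr rfl
      intro e he
      rw [← Finset.sum_filter, wsum _ Q (insert (τ e) (R i)) (insert_subset (hτ e he) (hR i)), hbq]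
  rw [hsum] at hup
  -- lower bound for each term
  have hterm : ∀ i ∈ I, (n : ℤ) * (q : ℤ) ^ N ≤ 2 * (q : ℤ) ^ c *
      (n * (q : ℤ) ^ (N - (R i).card) -
        4 * ∑ e ∈ E, (q : ℤ) ^ (N - (insert (τ e) (R i)).card)) := by
    intro i hi
    have hi2 : (R i).card ≤ c := (mem_filter.1 hi).2
    have hiN : (R i).card ≤ N := card_le_card (hR i)
    set z : ℤ := (q : ℤ) ^ (N - (R i).card) with hz
    have hz0 : 0 ≤ z := by positivity
    -- the number of edges with tail in `R i`
    have h1 : 16 * (E.filter fun e => τ e ∈ R i).card ≤ n := by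
      have h2 : (E.filter fun e => τ e ∈ R i).card ≤
          ∑ p ∈ R i, (E.filter fun e => τ e = p).card := by
        refine le_trans (card_le_card ?_) card_biUnion_le
        intro e he
        rw [mem_filter] at he
        rw [mem_biUnion]
        exact ⟨τ e, he.2, mem_filter.2 ⟨he.1, rfl⟩⟩
      have h3 : 16 * c * ∑ p ∈ R i, (E.filter fun e => τ e = p).card ≤ (R i).card * n := by
        rw [Finset.mul_sum, ← smul_eq_mul (R i).card, ← Finset.sum_const]
        exact Finset.sum_le_sum fun p _ => hB p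
      have h4 : c * (16 * (E.filter fun e => τ e ∈ R i).card) ≤ c * n := by
        calc c * (16 * (E.filter fun e => τ e ∈ R i).card)
            = 16 * c * (E.filter fun e => τ e ∈ R i).card := by ring
          _ ≤ 16 * c * ∑ p ∈ R i, (E.filter fun e => τ e = p).card := Nat.mul_le_mul_left _ h2
          _ ≤ (R i).card * n := h3
          _ ≤ c * n := Nat.mul_le_mul_right _ hi2
      exact Nat.le_of_mul_le_mul_left h4 (by omega)
    -- the sum over the edges
    have h5 : (q : ℤ) * ∑ e ∈ E, (q : ℤ) ^ (N - (insert (τ e) (R i)).card) ≤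
        z * (q * (E.filter fun e => τ e ∈ R i).card + E.card) := by
      rw [Finset.mul_sum]
      have h6 : ∀ e ∈ E, (q : ℤ) * (q : ℤ) ^ (N - (insert (τ e) (R i)).card) ≤
          z * (q * (if τ e ∈ R i then 1 else 0) + 1) := by
        intro e he
        by_cases h7 : τ e ∈ R i
        · rw [insert_eq_self.2 h7, if_pos h7]
          have : (0 : ℤ) ≤ q := by positivity
          nlinarith
        · rw [card_insert_of_notMem h7, if_neg h7, ← pow_succ']
          have h8 : (R i).card + 1 ≤ N := by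
            rw [← card_insert_of_notMem h7]
            exact card_le_card (insert_subset (hτ e he) (hR i))
          have h9 : N - ((R i).card + 1) + 1 = N - (R i).card := by omega
          rw [h9]
          linarith
      refine (Finset.sum_le_sum h6).trans (le_of_eq ?_)
      rw [← Finset.mul_sum]
      congr 1
      rw [Finset.sum_add_distrib, ← Finset.mul_sum]
      simp only [card_filter]
      push_cast
      simp
    have h10 : (q : ℤ) * (E.filter fun e => τ e ∈ R i).card + E.card ≤ 2 * (d * n) := by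
      have e1 : ((E.card : ℕ) : ℤ) ≤ d * n := by exact_mod_cast hE
      have e2 : (16 * ((E.filter fun e => τ e ∈ R i).card : ℤ)) ≤ n := by exact_mod_cast h1
      have e3 : (q : ℤ) = 16 * d := by rw [hq]; push_cast; ring
      rw [e3]
      have e4 : (0 : ℤ) ≤ d := by positivity
      nlinarith
    have h11 : (q : ℤ) * ∑ e ∈ E, (q : ℤ) ^ (N - (insert (τ e) (R i)).card) ≤
        z * (2 * (d * n)) := h5.trans (mul_le_mul_of_nonneg_left h10 hz0)
    have h12 : 8 * ∑ e ∈ E, (q : ℤ) ^ (N - (insert (τ e) (R i)).card) ≤ n * z := by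
      have e3 : (q : ℤ) = 16 * d := by rw [hq]; push_cast; ring
      have e4 : (0 : ℤ) < d := by exact_mod_cast hd1
      rw [e3] at h11
      have e5 : (2 * (d : ℤ)) * (8 * ∑ e ∈ E, (q : ℤ) ^ (N - (insert (τ e) (R i)).card)) ≤
          (2 * d) * (n * z) := by
        rw [← e3] at h11
        calc (2 * (d : ℤ)) * (8 * ∑ e ∈ E, (q : ℤ) ^ (N - (insert (τ e) (R i)).card))
            = q * ∑ e ∈ E, (q : ℤ) ^ (N - (insert (τ e) (R i)).card) := by rw [e3]; ring
          _ ≤ z * (2 * (d * n)) := h11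
          _ = (2 * d) * (n * z) := by ring
      exact le_of_mul_le_mul_left e5 (by linarith)
    have h13 : (q : ℤ) ^ N ≤ (q : ℤ) ^ c * z := by
      rw [hz, ← pow_add]
      apply pow_le_pow_right₀
      · linarith
      · omega
    have hn' : (0 : ℤ) < n := by exact_mod_cast hn
    have hqc : (0 : ℤ) ≤ (q : ℤ) ^ c := by positivity
    calc (n : ℤ) * (q : ℤ) ^ N ≤ n * ((q : ℤ) ^ c * z) :=
          mul_le_mul_of_nonneg_left h13 hn'.le
      _ = (q : ℤ) ^ c * (2 * (n * z) - n * z) := by ring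
      _ ≤ (q : ℤ) ^ c * (2 * (n * z) -
            8 * ∑ e ∈ E, (q : ℤ) ^ (N - (insert (τ e) (R i)).card)) :=
          mul_le_mul_of_nonneg_left (by linarith) hqc
      _ = _ := by ring
  have hlow : (I.card : ℤ) * (n * (q : ℤ) ^ N) ≤ 2 * (q : ℤ) ^ c *
      ∑ i ∈ I, (n * (q : ℤ) ^ (N - (R i).card) -
        4 * ∑ e ∈ E, (q : ℤ) ^ (N - (insert (τ e) (R i)).card)) := by
    rw [← nsmul_eq_mul, ← Finset.sum_const, Finset.mul_sum]
    exact Finset.sum_le_sum hterm
  have hI' : (n : ℤ) ≤ ((c : ℤ) + 1) * I.card := by exact_mod_cast hIc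
  have hqN : (0 : ℤ) ≤ (n : ℤ) * (q : ℤ) ^ N := by positivity
  have h14 : (n : ℤ) * (n * (q : ℤ) ^ N) ≤ ((c : ℤ) + 1) * I.card * (n * (q : ℤ) ^ N) :=
    mul_le_mul_of_nonneg_right hI' hqN
  have h15 := mul_le_mul_of_nonneg_left hlow (show (0 : ℤ) ≤ (c : ℤ) + 1 by positivity)
  rw [hκ0] at hup
  set sI : ℤ := ∑ i ∈ I, (n * (q : ℤ) ^ (N - (R i).card) -
        4 * ∑ e ∈ E, (q : ℤ) ^ (N - (insert (τ e) (R i)).card)) with hsI
  have h16 : 2 * (((c : ℤ) + 1) * (q : ℤ) ^ c) * sI =
      ((c : ℤ) + 1) * (2 * (q : ℤ) ^ c * sI) := by ring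
  have h17 : ((c : ℤ) + 1) * ((I.card : ℤ) * (n * (q : ℤ) ^ N)) =
      ((c : ℤ) + 1) * I.card * (n * (q : ℤ) ^ N) := by ring
  have h18 : (n : ℤ) * (n * (q : ℤ) ^ N) = (q : ℤ) ^ N * (n : ℤ) ^ 2 := by ring
  rw [h16] at hup
  rw [h17] at h15
  rw [h18] at h14
  linarith

/-- a subcollection of the right size -/
lemma greedy {P : Type} [DecidableEq P] (o : P → ℕ) (x : ℕ) (G : Finset P)
    (h : ∀ p ∈ G, 2 * o p ≤ x) (hG : x ≤ 2 * ∑ p ∈ G, o p) :
    ∃ G' ⊆ G, x ≤ 2 * ∑ p ∈ G', o p ∧ ∑ p ∈ G', o p ≤ x := by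
  induction G using Finset.induction with
  | empty => exact ⟨∅, le_rfl, hG, by simp⟩
  | insert p G hp ih =>
    by_cases hx : x ≤ 2 * ∑ p ∈ G, o p
    · obtain ⟨G', h1, h2, h3⟩ := ih (fun p hp => h p (mem_insert_of_mem hp)) hx
      exact ⟨G', h1.trans (subset_insert _ _), h2, h3⟩
    · refine ⟨insert p G, le_rfl, hG, ?_⟩
      push Not at hx
      rw [Finset.sum_insert hp]
      have := h p (mem_insert_self _ _)
      omega

end Pool.Agent.TH483.Io
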