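import Mathlib
import Pool.Agent.H468R2.Lin.Defs

/-!
# Cutting a linear circuit into two parts

Definitions only. `LinCircuit` and `HasTreeDec` are those of `Pool.Agent.H468R2.Lin.Defs`.
-/

set_option autoImplicit false

open Finset

namespace Pool.Agent.TH483.Io

open Pool.Agent.H468R2.Lin

variable {F : Type} [Field F] {n : ℕ}

/-- The undirected graph on the gates (the inputs are deleted) without the edges between `D` and
its complement: the disjoint union of the graphs of the two parts. -/
def splitAdj (C : LinCircuit F n) (D : Finset (Fin C.size)) (g h : Fin C.size) : Prop :=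
  C.adj g h ∧ (g ∈ D ↔ h ∈ D)

open Classical in
/-- The number of edges by which the complement of `D` is entered, from gates in `D` or from
inputs. -/
noncomputable def crossEdges (C : LinCircuit F n) (D : Finset (Fin C.size)) : ℕ :=
  (univ.filter fun e : Fin C.size × Fin C.size =>
    e.1 ∉ D ∧ e.2 ∈ D ∧ C.cg e.1 e.2 ≠ 0).card +
  (univ.filter fun e : Fin C.size × Fin n => e.1 ∉ D ∧ C.cin e.1 e.2 ≠ 0).card

end Pool.Agent.TH483.Io
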