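import Mathlib
import Pool.Agent.TH483.Io.DefsB
import Pool.Agent.TH483.Io.Circ
import Pool.Agent.TH483.Io.AvgB

/-!
# Linear circuits which split into two parts of small treewidth
-/

set_option autoImplicit false

open Finset

namespace Pool.Agent.TH483.Io

open Pool.Agent.H468R2.Lin (LinCircuit)

variable {F : Type} [Field F] {n : ℕ}

/-- a linear circuit as a circuit with separate output gates -/
noncomputable def toIO (C : LinCircuit F n) : IOCircuit F n where
  size := C.size
  ig := C.cin
  gg := C.cg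
  acyclic := C.acyclic
  og := fun j h => by classical exact if C.out j = Sum.inr h then 1 else 0
  oi := fun j i => by classical exact if C.out j = Sum.inl i then 1 else 0

lemma toIO_out (C : LinCircuit F n) (B : Matrix (Fin n) (Fin n) F)
    (form : Fin C.size → Fin n → F)
    (h : ∀ j i, Sum.elim (fun l : Fin n => (Pi.single l 1 : Fin n → F)) form (C.out j) i = B j i)
    (j i : Fin n) : B j i = (toIO C).oi j i + ∑ h, (toIO C).og j h * form h i := by
  classical
  have h1 := h j i
  rcases hj : C.out j with l | g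
  · rw [hj] at h1
    simp only [Sum.elim_inl] at h1
    rw [← h1]
    have e1 : ∀ h : Fin C.size, (toIO C).og j h * form h i = 0 := by
      intro h
      simp [toIO, hj]
    have e2 : ∑ h, (toIO C).og j h * form h i = 0 := Finset.sum_eq_zero fun h _ => e1 h
    rw [e2, add_zero]
    simp only [toIO, hj, Sum.inl.injEq, Pi.single_apply]
    by_cases hli : l = i
    · simp [hli]
    · rw [if_neg hli, if_neg (fun h => hli h.symm)]
  · rw [hj] at h1
    simp only [Sum.elim_inr] at h1
    rw [← h1]
    have e0 : (toIO C).oi j i = 0 := by simp [toIO, hj]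
    have e2 : ∑ h, (toIO C).og j h * form h i = form g i := by
      have e3 : ∀ h : Fin C.size, (toIO C).og j h * form h i = if g = h then form h i else 0 := by
        intro h
        simp only [toIO, hj, Sum.inr.injEq]
        split_ifs <;> simp
      have e4 : ∑ h, (toIO C).og j h * form h i = ∑ h : Fin C.size,
          if g = h then form h i else 0 := Finset.sum_congr rfl fun h _ => e3 h
      rw [e4]
      simp
    rw [e0, e2, zero_add]

/-- The main bound for circuits which split into two parts. -/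
theorem two_bound (C : LinCircuit F n) (A B : Matrix (Fin n) (Fin n) F) (hA : MinorsNonzero A)
    (hC : C.Computes B) (D : Finset (Fin C.size)) (hD : ∀ g ∈ D, ∀ h, C.cg g h ≠ 0 → h ∈ D)
    (hO : ∀ j, ∃ g, C.out j = Sum.inr g ∧ g ∉ D) (t : ℕ)
    (hT : Pool.Agent.H468R2.Lin.HasTreeDec (splitAdj C D) t) (c d : ℕ) (hc1 : 1 ≤ c)
    (hd1 : 1 ≤ d) (hc : C.inputEdges ≤ c * n) (hd' : crossEdges C D ≤ d * n) :
    n ≤ 8 * ((c + 1) * (16 * d) ^ c) *
      (15 * ((c + 1) * (16 * d) ^ c) * (t + 1) + (A - B).rank) := by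
  classical
  obtain ⟨form, hform, hout⟩ := hC
  have hB := toIO_out C B form hout
  choose og hog hogD using hO
  set Z := (c + 1) * (16 * d) ^ c with hZ
  have hZ1 : 16 * c * d ≤ Z := by
    calc 16 * c * d = c * (16 * d) ^ 1 := by ring
      _ ≤ (c + 1) * (16 * d) ^ c := by
        apply Nat.mul_le_mul (by omega)
        exact Nat.pow_le_pow_right (by omega) hc1
  have hcd : 1 ≤ c * d := Nat.mul_pos hc1 hd1
  have hZ2 : 16 ≤ Z := by
    have : 16 * (c * d) ≤ Z := by rw [← mul_assoc]; exact hZ1
    omega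
  -- small n
  by_cases hsmall : n ≤ 2 * Z
  · have e1 : 1 ≤ 15 * Z * (t + 1) + (A - B).rank := by
      have : 1 ≤ 15 * Z * (t + 1) := Nat.mul_pos (by omega) (by omega)
      omega
    calc n ≤ 8 * Z * 1 := by omega
      _ ≤ _ := Nat.mul_le_mul_left _ e1
  push Not at hsmall
  have hn : 0 < n := by omega
  have hcdc : c ≤ c * d := Nat.le_mul_of_pos_right _ (by omega)
  -- the pieces of the first part
  let μ1 : Fin C.size → ℕ := fun h => (univ.filter fun g => g ∉ D ∧ C.cg g h ≠ 0).card
  obtain ⟨S1, κ1, hS1D, hκ1, hp1, hS1⟩ := multi (splitAdj C D) t hT μ1 (16 * c) n D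
  have hcross : crossEdges C D ≤ d * n := hd'
  have hμ1 : ∑ h ∈ D, μ1 h ≤ (univ.filter fun e : Fin C.size × Fin C.size =>
      e.1 ∉ D ∧ e.2 ∈ D ∧ C.cg e.1 e.2 ≠ 0).card := by
    rw [Finset.card_eq_sum_card_fiberwise (f := Prod.snd) (t := D)]
    · apply Finset.sum_le_sum
      intro h hh
      refine card_le_card_of_injOn (fun g => (g, h)) ?_ ?_
      · intro g hg
        have hg' := (mem_filter.1 hg).2
        exact mem_filter.2 ⟨mem_filter.2 ⟨mem_univ _, hg'.1, hh, hg'.2⟩, rfl⟩
      · intro g _ g' _ hgg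
        exact (Prod.mk.inj hgg).1
    · intro e he
      exact (mem_filter.1 he).2.2.1
  have hS1c : S1.card ≤ 3 * (16 * c * d) * (t + 1) := by
    have h1 : n * S1.card ≤ n * (3 * (16 * c * d) * (t + 1)) := by
      calc n * S1.card ≤ 3 * (t + 1) * (16 * c * ∑ v ∈ D, μ1 v) := hS1
        _ ≤ 3 * (t + 1) * (16 * c * (d * n)) := by
            gcongr
            exact (hμ1.trans (Nat.le_add_right _ _)).trans hcross
        _ = n * (3 * (16 * c * d) * (t + 1)) := by ring
    exact Nat.le_of_mul_le_mul_left h1 hn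
  -- the sets of pieces read by the inputs
  let R : Fin n → Finset (ℕ ⊕ (Fin C.size × Fin n)) := fun i =>
    (univ.filter fun g => (g ∈ D ∧ g ∉ S1) ∧ C.cin g i ≠ 0).image (fun g => Sum.inl (κ1 g)) ∪
      (univ.filter fun g => g ∉ D ∧ C.cin g i ≠ 0).image (fun g => Sum.inr (g, i))
  -- the crossing edges
  let EG : Finset ((Fin C.size × Fin C.size) ⊕ (Fin C.size × Fin n)) :=
    (univ.filter fun e : Fin C.size × Fin C.size =>
      (e.1 ∉ D ∧ e.2 ∈ D ∧ C.cg e.1 e.2 ≠ 0) ∧ e.2 ∉ S1).disjSum
    (univ.filter fun e : Fin C.size × Fin n => e.1 ∉ D ∧ C.cin e.1 e.2 ≠ 0)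
  let τ : ((Fin C.size × Fin C.size) ⊕ (Fin C.size × Fin n)) → ℕ ⊕ (Fin C.size × Fin n) :=
    Sum.elim (fun e => Sum.inl (κ1 e.2)) (fun e => Sum.inr e)
  -- the head of a crossing edge
  let hd : ((Fin C.size × Fin C.size) ⊕ (Fin C.size × Fin n)) → Fin C.size :=
    Sum.elim (fun e => e.1) (fun e => e.1)
  let Q : Finset (ℕ ⊕ (Fin C.size × Fin n)) := (univ.biUnion R) ∪ EG.image τ
  have hRQ : ∀ i, R i ⊆ Q := fun i => (subset_biUnion_of_mem R (mem_univ i)).trans
    subset_union_left
  have hτQ : ∀ e ∈ EG, τ e ∈ Q := fun e he => mem_union_right _ (mem_image_of_mem τ he)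
  have hEGc : EG.card ≤ d * n := by
    refine le_trans ?_ hcross
    simp only [EG, card_disjSum]
    unfold crossEdges
    apply add_le_add
    · apply card_le_card
      intro e he
      simp only [mem_filter, mem_univ, true_and] at he ⊢
      exact he.1
    · exact le_rfl
  have hRc : ∑ i, (R i).card ≤ c * n := by
    refine le_trans ?_ hc
    have h1 : ∀ i, (R i).card ≤ (univ.filter fun g => C.cin g i ≠ 0).card := by
      intro i
      have h2 : (R i).card ≤ (univ.filter fun g => (g ∈ D ∧ g ∉ S1) ∧ C.cin g i ≠ 0).card +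
          (univ.filter fun g => g ∉ D ∧ C.cin g i ≠ 0).card :=
        (card_union_le _ _).trans (add_le_add card_image_le card_image_le)
      refine h2.trans ?_
      rw [← card_union_of_disjoint]
      · apply card_le_card
        intro g hg
        simp only [mem_union, mem_filter, mem_univ, true_and] at hg ⊢
        rcases hg with hg | hg
        · exact hg.2
        · exact hg.2
      · rw [Finset.disjoint_left]
        intro g hg hg'
        simp only [mem_filter, mem_univ, true_and] at hg hg'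
        exact hg'.1 hg.1.1
    refine (Finset.sum_le_sum fun i _ => h1 i).trans (le_of_eq ?_)
    unfold Pool.Agent.H468R2.Lin.LinCircuit.inputEdges
    simp only [card_filter]
    rw [Finset.sum_comm]
  have hBp : ∀ p, 16 * c * (EG.filter fun e => τ e = p).card ≤ n := by
    intro p
    rcases p with m | ⟨g0, i0⟩
    · refine le_trans (Nat.mul_le_mul_left _ ?_) (hp1 m)
      have h1 : (EG.filter fun e => τ e = Sum.inl m) ⊆
          ((D.filter fun v => v ∉ S1 ∧ κ1 v = m).biUnion fun h =>
            (univ.filter fun g => g ∉ D ∧ C.cg g h ≠ 0).image fun g => Sum.inl (g, h)) := by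
        intro e he
        rw [mem_filter] at he
        obtain ⟨he1, he2⟩ := he
        rcases e with ⟨g, h⟩ | ⟨g, i⟩
        · simp only [EG, inl_mem_disjSum, mem_filter, mem_univ, true_and] at he1
          simp only [τ, Sum.elim_inl, Sum.inl.injEq] at he2
          rw [mem_biUnion]
          refine ⟨h, mem_filter.2 ⟨he1.1.2.1, he1.2, he2⟩, ?_⟩
          exact mem_image_of_mem _ (mem_filter.2 ⟨mem_univ _, he1.1.1, he1.1.2.2⟩)
        · simp [τ] at he2
      refine (card_le_card h1).trans (card_biUnion_le.trans ?_)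
      apply Finset.sum_le_sum
      intro h _
      exact card_image_le
    · have h1 : (EG.filter fun e => τ e = Sum.inr (g0, i0)).card ≤ 1 := by
        rw [card_le_one]
        intro e he e' he'
        rw [mem_filter] at he he'
        have k1 : ∀ e, τ e = Sum.inr (g0, i0) → e = Sum.inr (g0, i0) := by
          intro e he
          rcases e with e | e
          · simp [τ] at he
          · simpa [τ] using he
        rw [k1 e he.2, k1 e' he'.2]
      have h16 : 16 * c * 1 ≤ 16 * c * d := Nat.mul_le_mul_left _ hd1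
      calc 16 * c * (EG.filter fun e => τ e = Sum.inr (g0, i0)).card ≤ 16 * c * 1 :=
            Nat.mul_le_mul_left _ h1
        _ ≤ n := by omega
  obtain ⟨U, -, hU1, hU2⟩ := avg_sparse Q R hRQ EG τ hτQ n c d hn hc1 hd1 (Fintype.card_fin n)
    hRc hEGc hBp
  rw [← hZ] at hU2
  set X := univ.filter (fun i => R i ⊆ U) with hX
  -- the number x
  obtain ⟨x, hx1, hx2, hx3⟩ : ∃ x, n ≤ 2 * Z * x ∧ x ≤ X.card ∧ 2 ≤ x := by
    refine ⟨X.card, hU2, le_rfl, ?_⟩
    by_contra hlt
    push Not at hlt
    have : 2 * Z * X.card ≤ 2 * Z * 1 := Nat.mul_le_mul_left _ (by omega)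
    omega
  have hXn : X.card ≤ n := (card_le_univ _).trans (Fintype.card_fin n).le
  have hxn : x ≤ n := hx2.trans hXn
  -- the pieces of the second part
  let μ2 : Fin C.size → ℕ := fun g => (univ.filter fun j => og j = g).card
  obtain ⟨S2, κ2, hS2D, hκ2, hp2, hS2⟩ := multi (splitAdj C D) t hT μ2 2 x (univ \ D)
  have hμ2 : ∑ g ∈ univ \ D, μ2 g = n := by
    have h1 := Finset.card_eq_sum_card_fiberwise (f := og) (s := (univ : Finset (Fin n)))
      (t := univ \ D) (fun j _ => mem_sdiff.2 ⟨mem_univ _, hogD j⟩)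
    rw [card_univ, Fintype.card_fin] at h1
    exact h1.symm
  have hS2c : S2.card ≤ 12 * Z * (t + 1) := by
    have h1 : x * S2.card ≤ x * (12 * Z * (t + 1)) := by
      calc x * S2.card ≤ 3 * (t + 1) * (2 * ∑ v ∈ univ \ D, μ2 v) := hS2
        _ = 3 * (t + 1) * (2 * n) := by rw [hμ2]
        _ ≤ 3 * (t + 1) * (2 * (2 * Z * x)) := by gcongr
        _ = x * (12 * Z * (t + 1)) := by ring
    exact Nat.le_of_mul_le_mul_left h1 (by omega)
  -- the labels of the outputs
  let pc : Fin n → ℕ ⊕ Fin n := fun j =>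
    if og j ∈ S2 then Sum.inr j else Sum.inl (κ2 (og j))
  let Ps : Finset (ℕ ⊕ Fin n) := univ.image pc
  let o : ℕ ⊕ Fin n → ℕ := fun p => (univ.filter fun j => pc j = p).card
  -- the edges from U, and the label of their heads
  let EU := (EG.filter fun e => τ e ∈ U).filter fun e => hd e ∉ S2
  let u : ℕ ⊕ Fin n → ℕ := fun p => (EU.filter fun e => Sum.inl (κ2 (hd e)) = p).card
  have hEU : 4 * EU.card ≤ n :=
    le_trans (Nat.mul_le_mul_left _ (card_le_card (filter_subset _ _))) hU1
  have hu_sum : ∀ G : Finset (ℕ ⊕ Fin n), ∑ p ∈ G, u p =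
      (EU.filter fun e => (Sum.inl (κ2 (hd e)) : ℕ ⊕ Fin n) ∈ G).card := by
    intro G
    rw [Finset.card_eq_sum_card_fiberwise (f := fun e => (Sum.inl (κ2 (hd e)) : ℕ ⊕ Fin n))
      (t := G)]
    · apply Finset.sum_congr rfl
      intro p hp
      simp only [u]
      congr 1
      ext e
      simp only [mem_filter]
      constructor
      · rintro ⟨h1, h2⟩
        exact ⟨⟨h1, h2 ▸ hp⟩, h2⟩
      · rintro ⟨⟨h1, _⟩, h2⟩
        exact ⟨h1, h2⟩
    · intro e he
      exact (mem_filter.1 he).2
  have ho_sum : ∀ G : Finset (ℕ ⊕ Fin n), ∑ p ∈ G, o p =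
      (univ.filter fun j => pc j ∈ G).card := by
    intro G
    rw [Finset.card_eq_sum_card_fiberwise (f := pc) (t := G)]
    · apply Finset.sum_congr rfl
      intro p hp
      simp only [o]
      congr 1
      ext j
      simp only [mem_filter, mem_univ, true_and]
      constructor
      · intro h
        exact ⟨h ▸ hp, h⟩
      · rintro ⟨_, h⟩
        exact h
    · intro j hj
      exact (mem_filter.1 hj).2
  have ho2 : ∀ p ∈ Ps, 2 * o p ≤ x := by
    intro p _
    rcases p with m | j0
    · refine le_trans (Nat.mul_le_mul_left 2 ?_) (hp2 m)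
      have h1 : (univ.filter fun j => pc j = Sum.inl m) ⊆
          ((univ \ D).filter fun v => v ∉ S2 ∧ κ2 v = m).biUnion fun g =>
            univ.filter fun j => og j = g := by
        intro j hj
        rw [mem_filter] at hj
        rw [mem_biUnion]
        refine ⟨og j, ?_, mem_filter.2 ⟨mem_univ _, rfl⟩⟩
        have h2 := hj.2
        simp only [pc] at h2
        split_ifs at h2 with h3
        rw [mem_filter, mem_sdiff]
        exact ⟨⟨mem_univ _, hogD j⟩, h3, Sum.inl_injective h2⟩
      exact (card_le_card h1).trans card_biUnion_le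
    · have h1 : o (Sum.inr j0) ≤ 1 := by
        refine le_trans (card_le_card (t := {j0}) ?_) (by simp)
        intro j hj
        rw [mem_filter] at hj
        have h2 := hj.2
        simp only [pc] at h2
        split_ifs at h2 with h3
        rw [mem_singleton]
        exact Sum.inr_injective h2
      omega
  -- the good pieces
  let Gd := Ps.filter fun p => 2 * u p ≤ o p
  have hgood : n ≤ 2 * ∑ p ∈ Gd, o p := by
    have h1 : ∑ p ∈ Ps, o p = n := by
      rw [ho_sum, Finset.filter_true_of_mem, card_univ, Fintype.card_fin]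
      intro j _
      exact mem_image_of_mem _ (mem_univ _)
    have h2 : ∑ p ∈ Ps.filter (fun p => ¬ 2 * u p ≤ o p), o p ≤ 2 * EU.card := by
      calc ∑ p ∈ Ps.filter (fun p => ¬ 2 * u p ≤ o p), o p
          ≤ ∑ p ∈ Ps.filter (fun p => ¬ 2 * u p ≤ o p), 2 * u p := by
            apply Finset.sum_le_sum
            intro p hp
            have := (mem_filter.1 hp).2
            omega
        _ = 2 * ∑ p ∈ Ps.filter (fun p => ¬ 2 * u p ≤ o p), u p := by rw [Finset.mul_sum]
        _ ≤ 2 * EU.card := by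
            rw [hu_sum]
            exact Nat.mul_le_mul_left _ (card_le_card (filter_subset _ _))
    have h3 := Finset.sum_filter_add_sum_filter_not Ps (fun p => 2 * u p ≤ o p) o
    rw [h1] at h3
    have h4 : ∑ p ∈ Gd, o p = ∑ p ∈ Ps.filter (fun p => 2 * u p ≤ o p), o p := rfl
    omega
  obtain ⟨G, hGG, hG1, hG2⟩ := greedy o x Gd (fun p hp => ho2 p (mem_filter.1 hp).1)
    (hxn.trans hgood)
  rw [ho_sum] at hG1 hG2
  set Y := univ.filter (fun j => pc j ∈ G) with hY
  have huY : 2 * (EU.filter fun e => (Sum.inl (κ2 (hd e)) : ℕ ⊕ Fin n) ∈ G).card ≤ Y.card := by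
    rw [← hu_sum, hY, ← ho_sum, Finset.mul_sum]
    apply Finset.sum_le_sum
    intro p hp
    exact (mem_filter.1 (hGG hp)).2
  set EY := EU.filter (fun e => (Sum.inl (κ2 (hd e)) : ℕ ⊕ Fin n) ∈ G) with hEY
  -- tails and read inputs
  let T : Finset (Fin C.size) := (univ.filter fun h => ∃ g, Sum.inl (g, h) ∈ EY)
  let W : Finset (Fin n) := (univ.filter fun i => ∃ g, Sum.inr (g, i) ∈ EY)
  have hTW : T.card + W.card ≤ EY.card := by
    rw [← card_disjSum]
    have h1 : T.disjSum W ⊆ EY.image (Sum.elim (fun e => Sum.inl e.2) (fun e => Sum.inr e.2)) := by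
      intro y hy
      rw [mem_image]
      rcases y with h | i
      · rw [inl_mem_disjSum] at hy
        obtain ⟨g, hg⟩ := (mem_filter.1 hy).2
        exact ⟨Sum.inl (g, h), hg, rfl⟩
      · rw [inr_mem_disjSum] at hy
        obtain ⟨g, hg⟩ := (mem_filter.1 hy).2
        exact ⟨Sum.inr (g, i), hg, rfl⟩
    exact (card_le_card h1).trans card_image_le
  set X' := X \ W with hX'
  have hX'c : X.card ≤ X'.card + W.card := by
    have h := Finset.le_card_sdiff W X
    rw [← hX'] at h
    omega
  -- the cut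
  let SS : Finset (Fin C.size) := S1 ∪ S2 ∪ T
  have memSS : ∀ g : Fin C.size, g ∉ SS → g ∉ S1 ∧ g ∉ S2 ∧ g ∉ T := by
    intro g hg
    simp only [SS, mem_union, not_or] at hg
    exact ⟨hg.1.1, hg.1.2, hg.2⟩
  let bad : Fin C.size → Prop := fun g =>
    if g ∈ D then (Sum.inl (κ1 g) : ℕ ⊕ (Fin C.size × Fin n)) ∉ U
      else (Sum.inl (κ2 g) : ℕ ⊕ Fin n) ∈ G
  have c1 : ∀ g, g ∉ SS → bad g → ∀ i ∈ X', C.cin g i = 0 := by
    intro g hgS hg i hi
    obtain ⟨g1, g2, g3⟩ := memSS g hgS
    by_contra hne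
    have hiX : R i ⊆ U := (mem_filter.1 (mem_sdiff.1 hi).1).2
    have hiW : i ∉ W := (mem_sdiff.1 hi).2
    simp only [bad] at hg
    by_cases hgD : g ∈ D
    · rw [if_pos hgD] at hg
      apply hg
      apply hiX
      apply mem_union_left
      exact mem_image_of_mem _ (mem_filter.2 ⟨mem_univ _, ⟨hgD, g1⟩, hne⟩)
    · rw [if_neg hgD] at hg
      apply hiW
      refine mem_filter.2 ⟨mem_univ _, g, ?_⟩
      have h1 : (Sum.inr (g, i) : ℕ ⊕ (Fin C.size × Fin n)) ∈ R i :=
        mem_union_right _ (mem_image_of_mem (fun g => Sum.inr (g, i))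
          (mem_filter.2 ⟨mem_univ _, hgD, hne⟩))
      rw [hEY, mem_filter, mem_filter, mem_filter]
      refine ⟨⟨⟨?_, hiX h1⟩, g2⟩, hg⟩
      simp only [EG, inr_mem_disjSum, mem_filter, mem_univ, true_and]
      exact ⟨hgD, hne⟩
  have c2 : ∀ g h, g ∉ SS → h ∉ SS → bad g → C.cg g h ≠ 0 → bad h := by
    intro g h hgS hhS hg hgh
    obtain ⟨g1, g2, g3⟩ := memSS g hgS
    obtain ⟨h1, h2, h3⟩ := memSS h hhS
    simp only [bad] at hg ⊢
    by_cases hgD : g ∈ D
    · have hhD : h ∈ D := hD g hgD h hgh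
      rw [if_pos hgD] at hg
      rw [if_pos hhD]
      rw [← hκ1 g h hgD hhD g1 h1 ⟨Or.inl hgh, by simp [hgD, hhD]⟩]
      exact hg
    · rw [if_neg hgD] at hg
      by_cases hhD : h ∈ D
      · rw [if_pos hhD]
        intro hU
        apply h3
        refine mem_filter.2 ⟨mem_univ _, g, ?_⟩
        rw [hEY, mem_filter, mem_filter, mem_filter]
        refine ⟨⟨⟨?_, hU⟩, g2⟩, hg⟩
        simp only [EG, inl_mem_disjSum, mem_filter, mem_univ, true_and]
        exact ⟨⟨hgD, hhD, hgh⟩, h1⟩
      · rw [if_neg hhD]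
        rw [← hκ2 g h (mem_sdiff.2 ⟨mem_univ _, hgD⟩) (mem_sdiff.2 ⟨mem_univ _, hhD⟩)
          g2 h2 ⟨Or.inl hgh, by simp [hgD, hhD]⟩]
        exact hg
  have c3 : ∀ j ∈ Y, ∀ h, h ∉ SS → C.out j = Sum.inr h → bad h := by
    intro j hj h hhS h1
    obtain ⟨q1, q2, q3⟩ := memSS h hhS
    have h2 : og j = h := by
      rw [hog j] at h1
      exact Sum.inr_injective h1
    have hhD : h ∉ D := h2 ▸ hogD j
    simp only [bad]
    rw [if_neg hhD]
    have h3 : pc j ∈ G := (mem_filter.1 hj).2
    simp only [pc, h2, if_neg q2] at h3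
    exact h3
  have hcut : min X'.card Y.card ≤ SS.card + (A - B).rank := cut_rank (toIO C) A B hA form hform hB SS bad X' Y c1 c2 (by
      intro j hj h hhS hne
      refine c3 j hj h hhS ?_
      by_contra h2
      exact hne (by simp [toIO, h2])) (by
      intro j hj i hi
      have h1 : C.out j ≠ Sum.inl i := by
        rw [hog j]
        simp
      simp [toIO, h1])
    (min X'.card Y.card) (min_le_left _ _) (min_le_right _ _)
  have hScard : SS.card ≤ S1.card + S2.card + T.card :=
    (card_union_le _ _).trans (Nat.add_le_add_right (card_union_le _ _) _)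
  have hfin : x ≤ 4 * (S1.card + S2.card + (A - B).rank) := by
    rcases le_total X'.card Y.card with h | h
    · rw [min_eq_left h] at hcut
      omega
    · rw [min_eq_right h] at hcut
      omega
  have hS1Z : S1.card ≤ 3 * Z * (t + 1) := by
    refine hS1c.trans (Nat.mul_le_mul_right _ ?_)
    omega
  calc n ≤ 2 * Z * x := hx1
    _ ≤ 2 * Z * (4 * (S1.card + S2.card + (A - B).rank)) := Nat.mul_le_mul_left _ hfin
    _ ≤ 2 * Z * (4 * (3 * Z * (t + 1) + 12 * Z * (t + 1) + (A - B).rank)) := by gcongr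
    _ = 8 * Z * (15 * Z * (t + 1) + (A - B).rank) := by ring

end Pool.Agent.TH483.Io
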