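import Mathlib
import Pool.Agent.TH483.Io.Two

/-!
# The asymptotic form of the bound for two parts
-/

set_option autoImplicit false

open Finset

namespace Pool.Agent.TH483.Io

open Pool.Agent.H468R2.Lin (LinCircuit)

lemma logb_tangent (y : ℝ) (hy : 128 ≤ y) : Real.logb 2 y ≤ 7 + (y / 128 - 1) / 0.69 := by
  have h2 : (0 : ℝ) < Real.log 2 := Real.log_pos (by norm_num)
  have h3 : (0.69 : ℝ) ≤ Real.log 2 := by
    have := Real.log_two_gt_d9
    linarith
  have h1 : Real.logb 2 y = 7 + Real.logb 2 (y / 128) := by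
    have e1 : Real.logb 2 128 = 7 := by
      have : (128 : ℝ) = 2 ^ (7 : ℕ) := by norm_num
      rw [this, Real.logb_pow, Real.logb_self_eq_one (by norm_num)]
      norm_num
    rw [Real.logb_div (by linarith) (by norm_num), e1]
    ring
  rw [h1]
  have h4 : Real.log (y / 128) ≤ y / 128 - 1 := Real.log_le_sub_one_of_pos (by linarith)
  have h5 : 0 ≤ y / 128 - 1 := by
    rw [sub_nonneg, le_div_iff₀ (by norm_num)]
    linarith
  have h6 : Real.logb 2 (y / 128) ≤ (y / 128 - 1) / 0.69 := by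
    rw [Real.logb, div_le_div_iff₀ h2 (by norm_num)]
    nlinarith
  linarith

lemma real_stepB (y x c : ℝ) (hy : 128 ≤ y) (hx : 0 ≤ x) (hc0 : 1 ≤ c) (hc : c ≤ x + 1)
    (h : y ≤ 7 + (2 * c + 2) * Real.logb 2 (16 * c)) : y ≤ 4 * x * Real.logb 2 y := by
  by_contra hcon
  push Not at hcon
  set l := Real.logb 2 y with hl
  have hl7 : 7 ≤ l := by
    rw [hl, Real.le_logb_iff_rpow_le (by norm_num) (by linarith)]
    norm_num
    exact hy
  have h28 : 28 * x ≤ y := by nlinarith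
  have h16 : 16 * c ≤ y := by linarith
  have hlog : Real.logb 2 (16 * c) ≤ l :=
    Real.logb_le_logb_of_le (by norm_num) (by linarith) h16
  have h1 : y ≤ 7 + (2 * c + 2) * l := by
    have : (2 * c + 2) * Real.logb 2 (16 * c) ≤ (2 * c + 2) * l :=
      mul_le_mul_of_nonneg_left hlog (by linarith)
    linarith
  have h2 : (2 * c + 2) * l ≤ (2 * x + 4) * l := by
    apply mul_le_mul_of_nonneg_right _ (by linarith)
    linarith
  have h3 : y ≤ 14 + 8 * l := by nlinarith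
  have h4 := logb_tangent y hy
  have h5 : (y / 128 - 1) / 0.69 = y / 88.32 - 1 / 0.69 := by ring
  rw [h5] at h4
  have h6 : y / 88.32 ≤ y / 88 := by
    apply div_le_div_of_nonneg_left (by linarith) (by norm_num) (by norm_num)
  have h7 : (1 : ℝ) / 0.69 ≥ 1.4 := by norm_num
  have h8 : l ≤ 5.6 + y / 88 := by linarith
  have h9 : y ≤ 14 + 8 * (5.6 + y / 88) := by linarith
  linarith

lemma two_nat {F : Type} [Field F] {n : ℕ} (C : LinCircuit F n)
    (A B : Matrix (Fin n) (Fin n) F) (hA : MinorsNonzero A)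
    (hC : C.Computes B) (D : Finset (Fin C.size)) (hD : ∀ g ∈ D, ∀ h, C.cg g h ≠ 0 → h ∈ D)
    (hO : ∀ j, ∃ g, C.out j = Sum.inr g ∧ g ∉ D) (t : ℕ)
    (hT : Pool.Agent.H468R2.Lin.HasTreeDec (splitAdj C D) t) (c d : ℕ) (hc1 : 1 ≤ c)
    (hd1 : 1 ≤ d) (hc : C.inputEdges ≤ c * n) (hd : crossEdges C D ≤ d * n) :
    n ≤ 120 * ((c + 1) ^ 2 * (16 * d) ^ (2 * c)) * (t + 1 + (A - B).rank) := by
  have hmain := two_bound C A B hA hC D hD hO t hT c d hc1 hd1 hc hd
  set ρ := (A - B).rank with hρ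
  set Z := (c + 1) * (16 * d) ^ c with hZ
  have hZ1 : 1 ≤ Z := Nat.mul_pos (by omega) (Nat.pow_pos (by omega))
  refine hmain.trans ?_
  have e1 : 15 * Z * (t + 1) + ρ ≤ 15 * Z * (t + 1 + ρ) := by
    have : ρ ≤ 15 * Z * ρ := Nat.le_mul_of_pos_left _ (by omega)
    calc 15 * Z * (t + 1) + ρ ≤ 15 * Z * (t + 1) + 15 * Z * ρ := Nat.add_le_add_left this _
      _ = 15 * Z * (t + 1 + ρ) := by ring
  calc 8 * Z * (15 * Z * (t + 1) + ρ) ≤ 8 * Z * (15 * Z * (t + 1 + ρ)) :=
        Nat.mul_le_mul_left _ e1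
    _ = 120 * (Z * Z) * (t + 1 + ρ) := by ring
    _ = 120 * ((c + 1) ^ 2 * (16 * d) ^ (2 * c)) * (t + 1 + ρ) := by
        rw [hZ]
        congr 2
        rw [two_mul c, pow_add]
        ring

/-- The number of crossing edges when the inputs have bounded average out-degree. -/
theorem two_fan {F : Type} [Field F] {n : ℕ} (C : LinCircuit F n)
    (A B : Matrix (Fin n) (Fin n) F) (hA : MinorsNonzero A)
    (hC : C.Computes B) (D : Finset (Fin C.size)) (hD : ∀ g ∈ D, ∀ h, C.cg g h ≠ 0 → h ∈ D)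
    (hO : ∀ j, ∃ g, C.out j = Sum.inr g ∧ g ∉ D) (t : ℕ)
    (hT : Pool.Agent.H468R2.Lin.HasTreeDec (splitAdj C D) t) (c : ℕ) (hc1 : 1 ≤ c)
    (hc : C.inputEdges ≤ c * n) :
    (n : ℝ) / (120 * (c + 1) ^ 2 * (t + 1 + (A - B).rank : ℕ)) ≤
      (16 * ((crossEdges C D : ℝ) / n + 1)) ^ (2 * c) := by
  rcases Nat.eq_zero_or_pos n with h0 | hn1
  · have : (n : ℝ) = 0 := by exact_mod_cast h0
    rw [this, zero_div]
    positivity
  have hn0 : (0 : ℝ) < n := by exact_mod_cast hn1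
  set W := crossEdges C D with hW
  set d := W / n + 1 with hd
  have hdL : W ≤ d * n := by
    have h1 := Nat.div_add_mod W n
    have h2 := Nat.mod_lt W hn1
    have h3 : (W / n + 1) * n = n * (W / n) + n := by ring
    rw [hd, h3]
    omega
  have h1 := two_nat C A B hA hC D hD hO t hT c d hc1 (Nat.succ_pos _) hc hdL
  set s := t + 1 + (A - B).rank with hs
  have hs0 : (0 : ℝ) < s := by
    have : 0 < s := by omega
    exact_mod_cast this
  rw [div_le_iff₀ (by positivity)]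
  have h2 : (n : ℝ) ≤ 120 * (((c : ℝ) + 1) ^ 2 * (16 * (d : ℝ)) ^ (2 * c)) * s := by
    exact_mod_cast h1
  have h3 : (d : ℝ) ≤ (W : ℝ) / n + 1 := by
    rw [hd]
    push_cast
    have : ((W / n : ℕ) : ℝ) ≤ (W : ℝ) / n := Nat.cast_div_le
    linarith
  have h4 : (16 * (d : ℝ)) ^ (2 * c) ≤ (16 * ((W : ℝ) / n + 1)) ^ (2 * c) := by
    apply pow_le_pow_left₀ (by positivity)
    linarith
  calc (n : ℝ) ≤ 120 * (((c : ℝ) + 1) ^ 2 * (16 * (d : ℝ)) ^ (2 * c)) * s := h2
    _ ≤ 120 * (((c : ℝ) + 1) ^ 2 * (16 * ((W : ℝ) / n + 1)) ^ (2 * c)) * s := by gcongr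
    _ = _ := by ring

/-- The sum of the numbers of edges. -/
theorem two_asym {F : Type} [Field F] {n : ℕ} (C : LinCircuit F n)
    (A B : Matrix (Fin n) (Fin n) F) (hA : MinorsNonzero A)
    (hC : C.Computes B) (D : Finset (Fin C.size)) (hD : ∀ g ∈ D, ∀ h, C.cg g h ≠ 0 → h ∈ D)
    (hO : ∀ j, ∃ g, C.out j = Sum.inr g ∧ g ∉ D) (t : ℕ)
    (hT : Pool.Agent.H468R2.Lin.HasTreeDec (splitAdj C D) t)
    (hK : 2 ^ 128 * (t + 1 + (A - B).rank) ≤ n) :
    (n : ℝ) * Real.logb 2 (n / (t + 1 + (A - B).rank : ℕ)) ≤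
      4 * (C.inputEdges + crossEdges C D : ℕ) *
        Real.logb 2 (Real.logb 2 (n / (t + 1 + (A - B).rank : ℕ))) := by
  set L := C.inputEdges + crossEdges C D with hL
  have hn1 : 0 < n := by
    have : 0 < 2 ^ 128 * (t + 1 + (A - B).rank) := by positivity
    omega
  have hn0 : (0 : ℝ) < n := by exact_mod_cast hn1
  set c := L / n + 1 with hc
  have hc1 : 1 ≤ c := Nat.succ_pos _
  have hcL : L ≤ c * n := by
    have h1 := Nat.div_add_mod L n
    have h2 := Nat.mod_lt L hn1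
    have h3 : (L / n + 1) * n = n * (L / n) + n := by ring
    rw [hc, h3]
    omega
  have h1 := two_nat C A B hA hC D hD hO t hT c c hc1 hc1
    ((Nat.le_add_right _ _).trans hcL) ((Nat.le_add_left _ _).trans hcL)
  set s := t + 1 + (A - B).rank with hs
  have hs1 : 1 ≤ s := by omega
  have hs0 : (0 : ℝ) < s := by exact_mod_cast hs1
  set y := Real.logb 2 (n / s) with hy
  have hy1 : 128 ≤ y := by
    rw [hy, Real.le_logb_iff_rpow_le (by norm_num) (by positivity), le_div_iff₀ hs0]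
    have h1 : ((2 ^ 128 * s : ℕ) : ℝ) ≤ n := Nat.cast_le.mpr hK
    rw [Nat.cast_mul, Nat.cast_pow] at h1
    have h2 : (2 : ℝ) ^ (128 : ℝ) = 2 ^ (128 : ℕ) := by
      rw [← Real.rpow_natCast]
      norm_num
    rw [h2]
    exact h1
  have hc0 : (1 : ℝ) ≤ c := by exact_mod_cast hc1
  have h2 : (n : ℝ) / s ≤ 120 * (((c : ℝ) + 1) ^ 2 * (16 * (c : ℝ)) ^ (2 * c)) := by
    rw [div_le_iff₀ hs0]
    exact_mod_cast h1
  have h3 : y ≤ 7 + (2 * c + 2) * Real.logb 2 (16 * c) := by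
    have e1 : y ≤ Real.logb 2 (120 * (((c : ℝ) + 1) ^ 2 * (16 * (c : ℝ)) ^ (2 * c))) :=
      Real.logb_le_logb_of_le (by norm_num) (by positivity) h2
    rw [Real.logb_mul (by norm_num) (by positivity), Real.logb_mul (by positivity) (by positivity),
      Real.logb_pow, Real.logb_pow] at e1
    have e2 : Real.logb 2 120 ≤ 7 := by
      rw [Real.logb_le_iff_le_rpow (by norm_num) (by norm_num)]
      norm_num
    have e3 : Real.logb 2 ((c : ℝ) + 1) ≤ Real.logb 2 (16 * c) :=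
      Real.logb_le_logb_of_le (by norm_num) (by positivity) (by linarith)
    push_cast at e1
    linarith
  set x : ℝ := L / n with hx
  have hx0 : 0 ≤ x := by positivity
  have hcx : (c : ℝ) ≤ x + 1 := by
    rw [hc]
    push_cast
    have : ((L / n : ℕ) : ℝ) ≤ (L : ℝ) / n := Nat.cast_div_le
    linarith
  have h4 := real_stepB y x c hy1 hx0 hc0 hcx h3
  calc (n : ℝ) * y ≤ n * (4 * x * Real.logb 2 y) := mul_le_mul_of_nonneg_left h4 hn0.le
    _ = 4 * L * Real.logb 2 y := by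
        rw [hx]
        field_simp

end Pool.Agent.TH483.Io
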