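import Mathlib

/-!
# Blocks of a square matrix and their ranks
-/

set_option autoImplicit false

open Finset

namespace Pool.Agent.TH483.Io

variable {F : Type} [Field F] {V : Type} [Fintype V] [DecidableEq V]

open Classical in
/-- The block of `G` with rows in `R` and columns in `S`, filled up with zeros. -/
noncomputable def blk (G : V → V → F) (R S : Set V) : Matrix V V F :=
  Matrix.of fun g h => if g ∈ R ∧ h ∈ S then G g h else 0

omit [DecidableEq V] in
lemma rank_add_le_add (A B : Matrix V V F) : (A + B).rank ≤ A.rank + B.rank := by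
  unfold Matrix.rank
  rw [Matrix.mulVecLin_add]
  have h : LinearMap.range (A.mulVecLin + B.mulVecLin) ≤
      LinearMap.range A.mulVecLin ⊔ LinearMap.range B.mulVecLin := by
    rintro _ ⟨x, rfl⟩
    exact Submodule.add_mem_sup ⟨x, rfl⟩ ⟨x, rfl⟩
  exact (Submodule.finrank_mono h).trans (Submodule.finrank_add_le_finrank_add_finrank _ _)

lemma blk_mono (G : V → V → F) {R R' S S' : Set V} (hR : R' ⊆ R) (hS : S' ⊆ S) :
    (blk G R' S').rank ≤ (blk G R S).rank := by
  classical
  have e : blk G R' S' = Matrix.diagonal (fun g => if g ∈ R' then (1 : F) else 0) * blk G R S *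
      Matrix.diagonal (fun g => if g ∈ S' then (1 : F) else 0) := by
    ext g h
    rw [Matrix.mul_diagonal, Matrix.diagonal_mul]
    simp only [blk, Matrix.of_apply]
    by_cases hg : g ∈ R'
    · by_cases hh : h ∈ S'
      · simp [hg, hh, hR hg, hS hh]
      · simp [hh]
    · simp [hg]
  rw [e]
  exact (Matrix.rank_mul_le_left _ _).trans (Matrix.rank_mul_le_right _ _)

omit [DecidableEq V] in
lemma blk_empty_rows (G : V → V → F) (S : Set V) : (blk G ∅ S).rank = 0 := by
  have : blk G ∅ S = 0 := by ext g h; simp [blk]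
  rw [this, Matrix.rank_zero]

omit [DecidableEq V] in
lemma blk_empty_cols (G : V → V → F) (R : Set V) : (blk G R ∅).rank = 0 := by
  have : blk G R ∅ = 0 := by ext g h; simp [blk]
  rw [this, Matrix.rank_zero]

lemma blk_rows (G : V → V → F) (R R1 R2 S : Set V) (h : R ⊆ R1 ∪ R2) :
    (blk G R S).rank ≤ (blk G R1 S).rank + (blk G R2 S).rank := by
  classical
  have e : blk G (R ∩ R1) S + blk G (R \ R1) S = blk G R S := by
    ext g h
    simp only [blk, Matrix.add_apply, Matrix.of_apply, Set.mem_inter_iff, Set.mem_sdiff]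
    by_cases hg : g ∈ R <;> by_cases h1 : g ∈ R1 <;> by_cases hh : h ∈ S <;> simp [hg, h1, hh]
  rw [← e]
  refine (rank_add_le_add _ _).trans (add_le_add (blk_mono G Set.inter_subset_right subset_rfl)
    (blk_mono G ?_ subset_rfl))
  intro x hx
  rcases h hx.1 with h | h
  · exact absurd h hx.2
  · exact h

lemma blk_cols (G : V → V → F) (R S S1 S2 : Set V) (h : S ⊆ S1 ∪ S2) :
    (blk G R S).rank ≤ (blk G R S1).rank + (blk G R S2).rank := by
  classical
  have e : blk G R (S ∩ S1) + blk G R (S \ S1) = blk G R S := by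
    ext g h
    simp only [blk, Matrix.add_apply, Matrix.of_apply, Set.mem_inter_iff, Set.mem_sdiff]
    by_cases hg : g ∈ R <;> by_cases h1 : h ∈ S1 <;> by_cases hh : h ∈ S <;> simp [hg, h1, hh]
  rw [← e]
  refine (rank_add_le_add _ _).trans (add_le_add (blk_mono G subset_rfl Set.inter_subset_right)
    (blk_mono G subset_rfl ?_))
  intro x hx
  rcases h hx.1 with h | h
  · exact absurd h hx.2
  · exact h

end Pool.Agent.TH483.Io
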