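import Mathlib
import Pool.Agent.TH483.Io.Circ
import Pool.Agent.TH483.Io.Blk

/-!
# Linear circuits whose inner gates are joined through matrices of small rank
-/

set_option autoImplicit false

open Finset

namespace Pool.Agent.TH483.Io

variable {F : Type} [Field F] {n : ℕ}

/-- `k` disjoint input-output pairs separated by the set `S` of gates, up to matrices of
small rank. -/
lemma cut_rank2 (C : IOCircuit F n) (A B : Matrix (Fin n) (Fin n) F) (hA : MinorsNonzero A)
    (form : Fin C.size → Fin n → F) (hform : C.IsForms form)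
    (hB : ∀ j i, B j i = C.oi j i + ∑ h, C.og j h * form h i)
    (S : Finset (Fin C.size)) (bad : Fin C.size → Prop) (X Y : Finset (Fin n))
    (h1 : ∀ g, g ∉ S → bad g → ∀ i ∈ X, C.ig g i = 0)
    (h3 : ∀ j ∈ Y, ∀ h, h ∉ S → C.og j h ≠ 0 → bad h)
    (h4 : ∀ j ∈ Y, ∀ i ∈ X, C.oi j i = 0) (k : ℕ) (hX : k ≤ X.card) (hY : k ≤ Y.card) :
    k ≤ S.card + ((A - B).rank +
      (blk C.gg {g | g ∉ S ∧ bad g} {g | g ∉ S ∧ ¬ bad g}).rank) := by
  classical
  by_contra hcon
  push Not at hcon
  obtain ⟨X', hX', hXc⟩ := exists_subset_card_eq hX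
  obtain ⟨Y', hY', hYc⟩ := exists_subset_card_eq hY
  let q : Fin k → Fin n := fun a => (X'.orderEmbOfFin hXc) a
  let p : Fin k → Fin n := fun a => (Y'.orderEmbOfFin hYc) a
  have hq : Function.Injective q := (X'.orderEmbOfFin hXc).injective
  have hp : Function.Injective p := (Y'.orderEmbOfFin hYc).injective
  have hqX : ∀ a, q a ∈ X := fun a => hX' (Finset.orderEmbOfFin_mem X' hXc a)
  have hpY : ∀ a, p a ∈ Y := fun a => hY' (Finset.orderEmbOfFin_mem Y' hYc a)
  have hdet := hA k p q hp hq
  -- extension by zero
  let E : (Fin k → F) →ₗ[F] (Fin n → F) :=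
    { toFun := fun y i => ∑ a, if q a = i then y a else 0
      map_add' := by
        intro y y'
        funext i
        simp only [Pi.add_apply]
        rw [← Finset.sum_add_distrib]
        apply Finset.sum_congr rfl
        intro a _
        split_ifs <;> simp
      map_smul' := by
        intro c y
        funext i
        simp only [Pi.smul_apply, smul_eq_mul, RingHom.id_apply, Finset.mul_sum]
        apply Finset.sum_congr rfl
        intro a _
        split_ifs <;> simp }
  have hE : ∀ (v : Fin n → F) (y : Fin k → F), ∑ i, v i * E y i = ∑ a, v (q a) * y a := by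
    intro v y
    have : ∀ i, v i * E y i = ∑ a, if q a = i then v i * y a else 0 := by
      intro i
      show v i * (∑ a, if q a = i then y a else 0) = _
      rw [Finset.mul_sum]
      apply Finset.sum_congr rfl
      intro a _
      split_ifs <;> simp
    simp only [this]
    rw [Finset.sum_comm]
    apply Finset.sum_congr rfl
    intro a _
    simp
  have hEX : ∀ (y : Fin k → F) (i : Fin n), i ∉ X → E y i = 0 := by
    intro y i hi
    show (∑ a, if q a = i then y a else 0) = 0
    apply Finset.sum_eq_zero
    intro a _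
    rw [if_neg]
    intro h
    exact hi (h ▸ hqX a)
  let f1 : (Fin k → F) →ₗ[F] (S → F) :=
    { toFun := fun y u => ∑ i, form u i * E y i
      map_add' := by
        intro y y'
        funext u
        simp [mul_add, Finset.sum_add_distrib]
      map_smul' := by
        intro c y
        funext u
        simp only [map_smul, Pi.smul_apply, smul_eq_mul, RingHom.id_apply, Finset.mul_sum]
        apply Finset.sum_congr rfl
        intro i _
        ring }
  let f2 : (Fin k → F) →ₗ[F] LinearMap.range (A - B).mulVecLin :=
    (A - B).mulVecLin.rangeRestrict.comp E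
  set M := blk C.gg {g | g ∉ S ∧ bad g} {g | g ∉ S ∧ ¬ bad g} with hM
  let f3 : (Fin k → F) →ₗ[F] LinearMap.range M.mulVecLin :=
    M.mulVecLin.rangeRestrict.comp ((Matrix.of form).mulVecLin.comp E)
  let f := f1.prod (f2.prod f3)
  have hker : LinearMap.ker f ≠ ⊥ := by
    apply LinearMap.ker_ne_bot_of_finrank_lt
    rw [Module.finrank_prod, Module.finrank_prod, Module.finrank_fintype_fun_eq_card,
      Module.finrank_fintype_fun_eq_card, Fintype.card_coe, Fintype.card_fin]
    exact hcon
  rw [Submodule.ne_bot_iff] at hker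
  obtain ⟨y, hy, hy0⟩ := hker
  rw [LinearMap.mem_ker] at hy
  have hy1 : f1 y = 0 := congrArg Prod.fst hy
  have hy2 : f2 y = 0 := congrArg Prod.fst (congrArg Prod.snd hy)
  have hy3 : f3 y = 0 := congrArg Prod.snd (congrArg Prod.snd hy)
  have hS0 : ∀ u ∈ S, ∑ i, form u i * E y i = 0 := fun u hu => congrFun hy1 ⟨u, hu⟩
  have hAB : ∀ j, ∑ i, (A - B) j i * E y i = 0 := by
    intro j
    have h5 : (A - B).mulVecLin (E y) = 0 := by
      have := congrArg Subtype.val hy2
      simpa [f2] using this
    exact congrFun h5 j
  have hMv : ∀ g, ∑ h, M g h * ∑ i, form h i * E y i = 0 := by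
    intro g
    have h5 : M.mulVecLin ((Matrix.of form).mulVecLin (E y)) = 0 := by
      have := congrArg Subtype.val hy3
      simpa [f3] using this
    exact congrFun h5 g
  have hbad : ∀ g, g ∉ S → bad g → ∑ i, form g i * E y i = 0 := by
    intro g
    induction g using WellFoundedLT.induction with
    | _ g ih =>
      intro hgS hg
      have e1 : ∑ i, form g i * E y i = ∑ i, C.ig g i * E y i +
          ∑ h, C.gg g h * ∑ i, form h i * E y i := by
        simp only [Finset.mul_sum]
        rw [Finset.sum_comm, ← Finset.sum_add_distrib]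
        apply Finset.sum_congr rfl
        intro i _
        rw [hform g i, add_mul, Finset.sum_mul]
        congr 1
        apply Finset.sum_congr rfl
        intro h _
        ring
      rw [e1]
      have e2 : ∑ i, C.ig g i * E y i = 0 := by
        apply Finset.sum_eq_zero
        intro i _
        by_cases hi : i ∈ X
        · rw [h1 g hgS hg i hi, zero_mul]
        · rw [hEX y i hi, mul_zero]
      have e3 : ∑ h, C.gg g h * ∑ i, form h i * E y i = 0 := by
        rw [← hMv g]
        apply Finset.sum_congr rfl
        intro h _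
        by_cases hc : C.gg g h = 0
        · have hc' : M g h = 0 := by
            simp [hM, blk, hc]
          rw [hc, hc']
        · by_cases hhS : h ∈ S
          · rw [hS0 h hhS, mul_zero, mul_zero]
          · by_cases hhb : bad h
            · rw [ih h (C.acyclic g h hc) hhS hhb, mul_zero, mul_zero]
            · have hc' : M g h = C.gg g h := by
                simp [hM, blk, hgS, hg, hhS, hhb]
              rw [hc']
      rw [e2, e3, add_zero]
  have hBy : ∀ j ∈ Y, ∑ i, B j i * E y i = 0 := by
    intro j hj
    have e1 : ∑ i, B j i * E y i = ∑ i, C.oi j i * E y i +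
        ∑ h, C.og j h * ∑ i, form h i * E y i := by
      simp only [Finset.mul_sum]
      rw [Finset.sum_comm, ← Finset.sum_add_distrib]
      apply Finset.sum_congr rfl
      intro i _
      rw [hB j i, add_mul, Finset.sum_mul]
      congr 1
      apply Finset.sum_congr rfl
      intro h _
      ring
    rw [e1]
    have e2 : ∑ i, C.oi j i * E y i = 0 := by
      apply Finset.sum_eq_zero
      intro i _
      by_cases hi : i ∈ X
      · rw [h4 j hj i hi, zero_mul]
      · rw [hEX y i hi, mul_zero]
    have e3 : ∑ h, C.og j h * ∑ i, form h i * E y i = 0 := by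
      apply Finset.sum_eq_zero
      intro h _
      by_cases hc : C.og j h = 0
      · rw [hc, zero_mul]
      · by_cases hhS : h ∈ S
        · rw [hS0 h hhS, mul_zero]
        · rw [hbad h hhS (h3 j hj h hhS hc), mul_zero]
    rw [e2, e3, add_zero]
  have hAy : ∀ a, ∑ b, A (p a) (q b) * y b = 0 := by
    intro a
    rw [← hE (fun i => A (p a) i) y]
    have h5 := hAB (p a)
    have h6 := hBy (p a) (hpY a)
    simp only [Matrix.sub_apply, sub_mul, Finset.sum_sub_distrib, h6, sub_zero] at h5
    exact h5
  apply hy0
  have h7 : (Matrix.of fun a b => A (p a) (q b)).mulVec y = 0 := by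
    funext a
    simpa [Matrix.mulVec, dotProduct] using hAy a
  exact Matrix.eq_zero_of_mulVec_eq_zero hdet h7

open Classical in
/-- The number of edges from inputs to the inner gate `g` plus the number of edges from `g` to
output gates. -/
noncomputable def IOCircuit.ioDeg (C : IOCircuit F n) (g : Fin C.size) : ℕ :=
  (univ.filter fun i => C.ig g i ≠ 0).card + (univ.filter fun j => C.og j g ≠ 0).card

lemma ioDeg_sum (C : IOCircuit F n) : ∑ g, C.ioDeg g ≤ C.inputEdges + C.outputEdges := by
  unfold IOCircuit.ioDeg
  rw [Finset.sum_add_distrib]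
  unfold IOCircuit.inputEdges IOCircuit.outputEdges
  refine add_le_add (le_trans (le_of_eq ?_) (Nat.le_add_right _ _))
    (le_trans (le_of_eq ?_) (Nat.le_add_right _ _))
  · simp only [card_filter]
    rw [Fintype.sum_prod_type]
  · simp only [card_filter]
    rw [Fintype.sum_prod_type, Finset.sum_comm]

/-- The bound for modules. -/
theorem module_bound (C : IOCircuit F n) (A B : Matrix (Fin n) (Fin n) F) (hA : MinorsNonzero A)
    (hC : C.Computes B) (S : Finset (Fin C.size)) (κ : Fin C.size → ℕ) (c r : ℕ)
    (hpiece : ∀ p, c * (c + 1) * ∑ v ∈ univ.filter (fun v => v ∉ S ∧ κ v = p), C.ioDeg v ≤ 2 * n)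
    (hr : ∀ U : Set ℕ, (blk C.gg {g | g ∉ S ∧ κ g ∉ U} {g | g ∉ S ∧ κ g ∈ U}).rank ≤ r)
    (hcn : c * (c + 1) ≤ n) (hc : C.inputEdges + C.outputEdges ≤ c * n) :
    n ≤ 2 ^ (c + 1) * (S.card + ((A - B).rank + r)) := by
  classical
  obtain ⟨form, hform, hB⟩ := hC
  rcases Nat.eq_zero_or_pos n with h0 | h0
  · exact h0.le.trans (Nat.zero_le _)
  -- the pieces
  let R : Fin n → Finset (ℕ ⊕ (Fin n × Fin n)) := fun i =>
    (univ.filter fun g => g ∉ S ∧ C.ig g i ≠ 0).image (fun g => Sum.inl (κ g)) ∪
      (univ.filter fun j => C.oi j i ≠ 0).image (fun j => Sum.inr (j, i))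
  let O : Fin n → Finset (ℕ ⊕ (Fin n × Fin n)) := fun j =>
    (univ.filter fun g => g ∉ S ∧ C.og j g ≠ 0).image (fun g => Sum.inl (κ g)) ∪
      (univ.filter fun i => C.oi j i ≠ 0).image (fun i => Sum.inr (j, i))
  let Q : Finset (ℕ ⊕ (Fin n × Fin n)) := (univ.biUnion R) ∪ (univ.biUnion O)
  have hRQ : ∀ i, R i ⊆ Q := fun i => (subset_biUnion_of_mem R (mem_univ i)).trans
    subset_union_left
  have hOQ : ∀ j, O j ⊆ Q := fun j => (subset_biUnion_of_mem O (mem_univ j)).trans
    subset_union_right
  have hRc : ∑ i, (R i).card ≤ C.inputEdges := by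
    have h1 : ∀ i, (R i).card ≤ (univ.filter fun g => C.ig g i ≠ 0).card +
        (univ.filter fun j => C.oi j i ≠ 0).card := by
      intro i
      refine (card_union_le _ _).trans (add_le_add (card_image_le.trans ?_) card_image_le)
      apply card_le_card
      intro g hg
      simp only [mem_filter, mem_univ, true_and] at hg ⊢
      exact hg.2
    refine (Finset.sum_le_sum fun i _ => h1 i).trans ?_
    rw [Finset.sum_add_distrib]
    apply le_of_eq
    unfold IOCircuit.inputEdges
    congr 1
    · simp only [card_filter]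
      rw [Fintype.sum_prod_type, Finset.sum_comm]
    · simp only [card_filter]
      rw [Fintype.sum_prod_type, Finset.sum_comm]
  have hOc : ∑ j, (O j).card ≤ C.outputEdges := by
    have h1 : ∀ j, (O j).card ≤ (univ.filter fun g => C.og j g ≠ 0).card +
        (univ.filter fun i => C.oi j i ≠ 0).card := by
      intro j
      refine (card_union_le _ _).trans (add_le_add (card_image_le.trans ?_) card_image_le)
      apply card_le_card
      intro g hg
      simp only [mem_filter, mem_univ, true_and] at hg ⊢
      exact hg.2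
    refine (Finset.sum_le_sum fun i _ => h1 i).trans ?_
    rw [Finset.sum_add_distrib]
    apply le_of_eq
    unfold IOCircuit.outputEdges
    congr 1
    · simp only [card_filter]
      rw [Fintype.sum_prod_type]
    · simp only [card_filter]
      rw [Fintype.sum_prod_type]
  -- the number of pairs which share a piece
  have hI : 2 * (c + 1) * (univ.filter fun p : Fin n × Fin n =>
      ¬ Disjoint (R p.1) (O p.2)).card ≤ n ^ 2 := by
    let rr : (ℕ ⊕ (Fin n × Fin n)) → ℕ := fun p => (univ.filter fun i => p ∈ R i).card
    let oo : (ℕ ⊕ (Fin n × Fin n)) → ℕ := fun p => (univ.filter fun j => p ∈ O j).card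
    have hle : (univ.filter fun p : Fin n × Fin n => ¬ Disjoint (R p.1) (O p.2)).card ≤
        ∑ p ∈ Q, rr p * oo p := by
      have h1 : (univ.filter fun p : Fin n × Fin n => ¬ Disjoint (R p.1) (O p.2)) ⊆
          Q.biUnion fun x => (univ.filter fun i => x ∈ R i) ×ˢ (univ.filter fun j => x ∈ O j) := by
        intro p hp
        rw [mem_filter] at hp
        obtain ⟨x, hx1, hx2⟩ := Finset.not_disjoint_iff.1 hp.2
        rw [mem_biUnion]
        refine ⟨x, hRQ _ hx1, ?_⟩
        rw [mem_product]
        exact ⟨mem_filter.2 ⟨mem_univ _, hx1⟩, mem_filter.2 ⟨mem_univ _, hx2⟩⟩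
      refine (card_le_card h1).trans (card_biUnion_le.trans (le_of_eq ?_))
      apply Finset.sum_congr rfl
      intro x _
      rw [card_product]
    have hlight : ∀ p ∈ Q, c * (c + 1) * (rr p + oo p) ≤ 2 * n := by
      intro p _
      rcases p with m | ⟨j, i⟩
      · refine le_trans (Nat.mul_le_mul_left _ ?_) (hpiece m)
        have h1 : rr (Sum.inl m) ≤ ∑ g ∈ univ.filter (fun v => v ∉ S ∧ κ v = m),
            (univ.filter fun i => C.ig g i ≠ 0).card := by
          refine le_trans (card_le_card ?_) card_biUnion_le
          intro i hi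
          simp only [R, mem_filter, mem_univ, true_and, mem_union, mem_image,
            Sum.inl.injEq, reduceCtorEq, and_false, exists_false, or_false] at hi
          obtain ⟨g, ⟨hg1, hg2⟩, hg3⟩ := hi
          simp only [mem_biUnion, mem_filter, mem_univ, true_and]
          exact ⟨g, ⟨hg1, hg3⟩, hg2⟩
        have h2 : oo (Sum.inl m) ≤ ∑ g ∈ univ.filter (fun v => v ∉ S ∧ κ v = m),
            (univ.filter fun j => C.og j g ≠ 0).card := by
          refine le_trans (card_le_card ?_) card_biUnion_le
          intro i hi
          simp only [O, mem_filter, mem_univ, true_and, mem_union, mem_image,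
            Sum.inl.injEq, reduceCtorEq, and_false, exists_false, or_false] at hi
          obtain ⟨g, ⟨hg1, hg2⟩, hg3⟩ := hi
          simp only [mem_biUnion, mem_filter, mem_univ, true_and]
          exact ⟨g, ⟨hg1, hg3⟩, hg2⟩
        have h3 : ∑ g ∈ univ.filter (fun v => v ∉ S ∧ κ v = m), C.ioDeg g =
            ∑ g ∈ univ.filter (fun v => v ∉ S ∧ κ v = m),
              ((univ.filter fun i => C.ig g i ≠ 0).card +
                (univ.filter fun j => C.og j g ≠ 0).card) := by
          apply Finset.sum_congr rfl
          intro g _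
          rfl
        rw [h3, Finset.sum_add_distrib]
        exact add_le_add h1 h2
      · have h1 : rr (Sum.inr (j, i)) ≤ 1 := by
          refine le_trans (card_le_card (t := {i}) ?_) (by simp)
          intro i' hi'
          simp only [R, mem_filter, mem_univ, true_and, mem_union, mem_image,
            Sum.inr.injEq, reduceCtorEq, and_false, exists_false, false_or, Prod.mk.injEq] at hi'
          obtain ⟨a, _, _, hb⟩ := hi'
          simp [hb]
        have h2 : oo (Sum.inr (j, i)) ≤ 1 := by
          refine le_trans (card_le_card (t := {j}) ?_) (by simp)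
          intro j' hj'
          simp only [O, mem_filter, mem_univ, true_and, mem_union, mem_image,
            Sum.inr.injEq, reduceCtorEq, and_false, exists_false, false_or, Prod.mk.injEq] at hj'
          obtain ⟨a, _, hb, _⟩ := hj'
          simp [hb]
        calc c * (c + 1) * (rr (Sum.inr (j, i)) + oo (Sum.inr (j, i))) ≤ c * (c + 1) * 2 :=
              Nat.mul_le_mul_left _ (by omega)
          _ ≤ 2 * n := by omega
    have htot : ∑ p ∈ Q, (rr p + oo p) ≤ c * n := by
      rw [Finset.sum_add_distrib]
      have e1 : ∑ p ∈ Q, rr p = ∑ i, (R i).card := by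
        simp only [rr, card_filter]
        rw [Finset.sum_comm]
        apply Finset.sum_congr rfl
        intro i _
        rw [← Finset.card_filter, Finset.filter_mem_eq_inter,
          Finset.inter_eq_right.2 (hRQ i)]
      have e2 : ∑ p ∈ Q, oo p = ∑ j, (O j).card := by
        simp only [oo, card_filter]
        rw [Finset.sum_comm]
        apply Finset.sum_congr rfl
        intro i _
        rw [← Finset.card_filter, Finset.filter_mem_eq_inter,
          Finset.inter_eq_right.2 (hOQ i)]
      rw [e1, e2]
      omega
    -- combine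
    rcases Nat.eq_zero_or_pos c with hc0 | hc0
    · have h0 : ∑ p ∈ Q, (rr p + oo p) = 0 := by
        have := htot
        rw [hc0] at this
        omega
      have h1 : ∑ p ∈ Q, rr p * oo p = 0 := by
        apply Finset.sum_eq_zero
        intro p hp
        have h2 := (Finset.sum_eq_zero_iff.1 h0) p hp
        have h3 : rr p = 0 := by omega
        rw [h3, zero_mul]
      have h2 : (univ.filter fun p : Fin n × Fin n => ¬ Disjoint (R p.1) (O p.2)).card = 0 := by
        omega
      rw [h2]
      simp
    have h1 : 4 * (c * (c + 1)) * ∑ p ∈ Q, rr p * oo p ≤ 2 * n * (c * n) := by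
      calc 4 * (c * (c + 1)) * ∑ p ∈ Q, rr p * oo p
          = ∑ p ∈ Q, (c * (c + 1)) * (4 * (rr p * oo p)) := by
            rw [Finset.mul_sum]
            apply Finset.sum_congr rfl
            intro p _
            ring
        _ ≤ ∑ p ∈ Q, 2 * n * (rr p + oo p) := by
            apply Finset.sum_le_sum
            intro p hp
            have h2 : 4 * (rr p * oo p) ≤ (rr p + oo p) * (rr p + oo p) := four_mul_le _ _
            calc (c * (c + 1)) * (4 * (rr p * oo p))
                ≤ (c * (c + 1)) * ((rr p + oo p) * (rr p + oo p)) := Nat.mul_le_mul_left _ h2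
              _ = (c * (c + 1) * (rr p + oo p)) * (rr p + oo p) := by ring
              _ ≤ 2 * n * (rr p + oo p) := Nat.mul_le_mul_right _ (hlight p hp)
        _ = 2 * n * ∑ p ∈ Q, (rr p + oo p) := by rw [Finset.mul_sum]
        _ ≤ 2 * n * (c * n) := Nat.mul_le_mul_left _ htot
    have h2 : 4 * (c * (c + 1)) * (univ.filter fun p : Fin n × Fin n =>
        ¬ Disjoint (R p.1) (O p.2)).card ≤ 2 * n * (c * n) :=
      (Nat.mul_le_mul_left _ hle).trans h1
    generalize (univ.filter fun p : Fin n × Fin n => ¬ Disjoint (R p.1) (O p.2)).card = I at h2 ⊢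
    have h3 : (2 * c) * (2 * (c + 1) * I) ≤ (2 * c) * n ^ 2 := by
      calc (2 * c) * (2 * (c + 1) * I) = 4 * (c * (c + 1)) * I := by ring
        _ ≤ 2 * n * (c * n) := h2
        _ = (2 * c) * n ^ 2 := by ring
    exact Nat.le_of_mul_le_mul_left h3 (by omega)
  have hcc : ∑ i, (R i).card + ∑ j, (O j).card ≤ c * n := (add_le_add hRc hOc).trans hc
  obtain ⟨U, -, hU⟩ := avg Q R O hRQ hOQ n c (Fintype.card_fin n) (Fintype.card_fin n) hcc hI
  set X := inU R U with hXdef
  set Y := outU O U with hYdef
  have hXn : X.card ≤ n := (card_le_univ _).trans (Fintype.card_fin n).le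
  have hYn : Y.card ≤ n := (card_le_univ _).trans (Fintype.card_fin n).le
  -- the cut
  have hcut := cut_rank2 C A B hA form hform hB S (fun g => Sum.inl (κ g) ∉ U) X Y (by
      intro g hgS hg i hi
      by_contra hne
      apply hg
      have h1 : R i ⊆ U := (mem_filter.1 hi).2
      apply h1
      apply mem_union_left
      exact mem_image_of_mem _ (mem_filter.2 ⟨mem_univ _, hgS, hne⟩)) (by
      intro j hj h hhS hne hmem
      have h1 : Disjoint (O j) U := (mem_filter.1 hj).2
      refine (Finset.disjoint_left.1 h1) ?_ hmem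
      apply mem_union_left
      exact mem_image_of_mem _ (mem_filter.2 ⟨mem_univ _, hhS, hne⟩)) (by
      intro j hj i hi
      by_contra hne
      have h1 : Disjoint (O j) U := (mem_filter.1 hj).2
      have h2 : R i ⊆ U := (mem_filter.1 hi).2
      have h3 : (Sum.inr (j, i) : ℕ ⊕ (Fin n × Fin n)) ∈ O j :=
        mem_union_right _ (mem_image_of_mem _ (mem_filter.2 ⟨mem_univ _, hne⟩))
      have h4 : (Sum.inr (j, i) : ℕ ⊕ (Fin n × Fin n)) ∈ R i :=
        mem_union_right _ (mem_image_of_mem (fun j => Sum.inr (j, i))
          (mem_filter.2 ⟨mem_univ _, hne⟩))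
      exact (Finset.disjoint_left.1 h1) h3 (h2 h4))
    (min X.card Y.card) (min_le_left _ _) (min_le_right _ _)
  have hmin : n ≤ 2 ^ (c + 1) * min X.card Y.card := by
    rcases le_total X.card Y.card with h | h
    · rw [min_eq_left h]
      have h1 : n * n ≤ n * (2 ^ (c + 1) * X.card) := by
        calc n * n = n ^ 2 := by ring
          _ ≤ 2 ^ (c + 1) * (X.card * Y.card) := hU
          _ ≤ 2 ^ (c + 1) * (X.card * n) := by gcongr
          _ = n * (2 ^ (c + 1) * X.card) := by ring
      exact Nat.le_of_mul_le_mul_left h1 h0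
    · rw [min_eq_right h]
      have h1 : n * n ≤ n * (2 ^ (c + 1) * Y.card) := by
        calc n * n = n ^ 2 := by ring
          _ ≤ 2 ^ (c + 1) * (X.card * Y.card) := hU
          _ ≤ 2 ^ (c + 1) * (n * Y.card) := by gcongr
          _ = n * (2 ^ (c + 1) * Y.card) := by ring
      exact Nat.le_of_mul_le_mul_left h1 h0
  have hrU := hr {p | Sum.inl p ∈ U}
  have hcut2 : min X.card Y.card ≤ S.card + ((A - B).rank + r) := by
    refine hcut.trans (Nat.add_le_add_left (Nat.add_le_add_left (le_trans ?_ hrU) _) _)
    apply blk_mono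
    · intro g hg
      exact hg
    · intro g hg
      exact ⟨hg.1, not_not.1 hg.2⟩
  exact hmin.trans (Nat.mul_le_mul_left _ hcut2)

end Pool.Agent.TH483.Io
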