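import Mathlib
import Pool.Agent.TH483.Io.Cut2
import Pool.Agent.TH483.Io.Asym

/-!
# Partitions of the inner gates into classes with few input and output edges
-/

set_option autoImplicit false

open Finset

namespace Pool.Agent.TH483.Io

variable {F : Type} [Field F] {V : Type} [Fintype V] [DecidableEq V]

lemma union_rank (G : V → V → F) (S : Finset V) (κ : V → ℕ) (U : Set ℕ) (M : ℕ)
    (hM : ∀ p, (blk G {g | g ∉ S ∧ κ g ≠ p} {g | g ∉ S ∧ κ g = p}).rank ≤ M) (k : ℕ) :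
    (blk G {g | g ∉ S ∧ κ g ∉ U} {g | g ∉ S ∧ κ g ∈ U ∧ κ g < k}).rank ≤ k * M := by
  induction k with
  | zero =>
    have : ({g | g ∉ S ∧ κ g ∈ U ∧ κ g < 0} : Set V) = ∅ := by
      apply Set.eq_empty_iff_forall_notMem.2
      rintro v ⟨-, -, h⟩
      exact Nat.not_lt_zero _ h
    rw [this, blk_empty_cols]
    exact Nat.zero_le _
  | succ k ih =>
    rw [add_mul, one_mul]
    refine (blk_cols G _ _ {g | g ∉ S ∧ κ g ∈ U ∧ κ g < k} {g | g ∉ S ∧ κ g = k ∧ k ∈ U}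
      ?_).trans (add_le_add ih ?_)
    · rintro v ⟨h1, h2, h3⟩
      rcases Nat.lt_succ_iff_lt_or_eq.1 h3 with h | h
      · exact Or.inl ⟨h1, h2, h⟩
      · exact Or.inr ⟨h1, h, h ▸ h2⟩
    · by_cases hk : k ∈ U
      · refine le_trans (blk_mono G ?_ ?_) (hM k)
        · rintro v ⟨h1, h2⟩
          exact ⟨h1, fun h => h2 (h ▸ hk)⟩
        · rintro v ⟨h1, h2, -⟩
          exact ⟨h1, h2⟩
      · have : ({g | g ∉ S ∧ κ g = k ∧ k ∈ U} : Set V) = ∅ := by
          apply Set.eq_empty_iff_forall_notMem.2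
          rintro v ⟨-, -, h⟩
          exact hk h
        rw [this, blk_empty_cols]
        exact Nat.zero_le _

variable {n : ℕ}

theorem part_union (C : IOCircuit F n) (A B : Matrix (Fin n) (Fin n) F) (hA : MinorsNonzero A)
    (hC : C.Computes B) (c : ℕ) (hcn : c * (c + 1) ≤ n)
    (hc : C.inputEdges + C.outputEdges ≤ c * n) (S : Finset (Fin C.size)) (κ : Fin C.size → ℕ)
    (hpiece : ∀ p, c * (c + 1) * ∑ v ∈ univ.filter (fun v => v ∉ S ∧ κ v = p), C.ioDeg v ≤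
      2 * n) :
    ∃ U : Set ℕ, n ≤ 2 ^ (c + 1) * (S.card + (A - B).rank +
      (blk C.gg {g | g ∉ S ∧ κ g ∉ U} {g | g ∉ S ∧ κ g ∈ U}).rank) := by
  classical
  -- the largest rank
  let f : Set ℕ → ℕ := fun U => (blk C.gg {g | g ∉ S ∧ κ g ∉ U} {g | g ∉ S ∧ κ g ∈ U}).rank
  have hbdd : ∀ U, f U ≤ C.size := by
    intro U
    exact (Matrix.rank_le_card_width _).trans (Fintype.card_fin _).le
  obtain ⟨U, hU⟩ : ∃ U, ∀ U', f U' ≤ f U := by
    by_contra hcon
    push Not at hcon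
    have key : ∀ m : ℕ, ∃ U, m ≤ f U := by
      intro m
      induction m with
      | zero => exact ⟨∅, Nat.zero_le _⟩
      | succ m ih =>
        obtain ⟨U, hU⟩ := ih
        obtain ⟨U', hU'⟩ := hcon U
        exact ⟨U', by omega⟩
    obtain ⟨U, hU⟩ := key (C.size + 1)
    have := hbdd U
    omega
  refine ⟨U, ?_⟩
  have h := module_bound C A B hA hC S κ c (f U) hpiece hU hcn hc
  rw [← add_assoc] at h
  exact h

theorem part_class (C : IOCircuit F n) (A B : Matrix (Fin n) (Fin n) F) (hA : MinorsNonzero A)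
    (hC : C.Computes B) (c : ℕ) (hcn : c * (c + 1) ≤ n)
    (hc : C.inputEdges + C.outputEdges ≤ c * n) (S : Finset (Fin C.size)) (κ : Fin C.size → ℕ)
    (hpiece : ∀ p, c * (c + 1) * ∑ v ∈ univ.filter (fun v => v ∉ S ∧ κ v = p), C.ioDeg v ≤
      2 * n) (k : ℕ) (hk : ∀ g, g ∉ S → κ g < k) :
    ∃ p : ℕ, n ≤ 2 ^ (c + 1) * (S.card + (A - B).rank +
      k * (blk C.gg {g | g ∉ S ∧ κ g ≠ p} {g | g ∉ S ∧ κ g = p}).rank) := by
  classical
  let f : ℕ → ℕ := fun p => (blk C.gg {g | g ∉ S ∧ κ g ≠ p} {g | g ∉ S ∧ κ g = p}).rank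
  have hbdd : ∀ U, f U ≤ C.size := by
    intro U
    exact (Matrix.rank_le_card_width _).trans (Fintype.card_fin _).le
  obtain ⟨p, hp⟩ : ∃ p, ∀ p', f p' ≤ f p := by
    by_contra hcon
    push Not at hcon
    have key : ∀ m : ℕ, ∃ p, m ≤ f p := by
      intro m
      induction m with
      | zero => exact ⟨0, Nat.zero_le _⟩
      | succ m ih =>
        obtain ⟨U, hU⟩ := ih
        obtain ⟨U', hU'⟩ := hcon U
        exact ⟨U', by omega⟩
    obtain ⟨U, hU⟩ := key (C.size + 1)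
    have := hbdd U
    omega
  obtain ⟨U, hU⟩ := part_union C A B hA hC c hcn hc S κ hpiece
  refine ⟨p, hU.trans (Nat.mul_le_mul_left _ (Nat.add_le_add_left ?_ _))⟩
  refine le_trans (blk_mono C.gg subset_rfl ?_) (union_rank C.gg S κ U (f p) hp k)
  rintro v ⟨h1, h2⟩
  exact ⟨h1, h2, hk v h1⟩

end Pool.Agent.TH483.Io
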