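import Mathlib
import Pool.Agent.TH483.Io.Blk

/-!
# Cutting a matrix along a tree of low-rank cuts
-/

set_option autoImplicit false

open Finset

namespace Pool.Agent.TH483.Io

/-- Binary trees whose leaves are labelled with elements of `V`. -/
inductive BTree (V : Type) : Type
  | nil : BTree V
  | leaf (v : V) : BTree V
  | node (l r : BTree V) : BTree V

variable {V : Type} [DecidableEq V]

/-- The set of the labels. -/
def BTree.leaves : BTree V → Finset V
  | .nil => ∅
  | .leaf v => {v}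
  | .node l r => l.leaves ∪ r.leaves

variable {F : Type} [Field F] [Fintype V]

/-- No label occurs twice, and for the set `X` of the labels of every subtree the blocks of `G`
with rows in `X` and columns outside `X`, and with rows outside `X` and columns in `X`, have rank
at most `t`. -/
def BTree.CutRank (G : V → V → F) (t : ℕ) : BTree V → Prop
  | .nil => True
  | .leaf v => (blk G {v} {v}ᶜ).rank ≤ t ∧ (blk G {v}ᶜ {v}).rank ≤ t
  | .node l r => BTree.CutRank G t l ∧ BTree.CutRank G t r ∧ Disjoint l.leaves r.leaves ∧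
      (blk G ((l.leaves ∪ r.leaves : Finset V) : Set V) ((l.leaves ∪ r.leaves : Finset V) : Set V)ᶜ).rank ≤ t ∧
      (blk G ((l.leaves ∪ r.leaves : Finset V) : Set V)ᶜ ((l.leaves ∪ r.leaves : Finset V) : Set V)).rank ≤ t

/-- The rank-width of the matrix `G` is at most `t`. -/
def RankWidthLe (G : V → V → F) (t : ℕ) : Prop :=
  ∃ T : BTree V, T.leaves = univ ∧ T.CutRank G t

lemma BTree.CutRank.in_rank {G : V → V → F} {t : ℕ} {T : BTree V} (h : T.CutRank G t) :
    (blk G (T.leaves : Set V) (T.leaves : Set V)ᶜ).rank ≤ t := by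
  cases T with
  | nil => simp [BTree.leaves, blk_empty_rows]
  | leaf v => simpa [BTree.leaves] using h.1
  | node l r => exact h.2.2.2.1

lemma BTree.CutRank.out_rank {G : V → V → F} {t : ℕ} {T : BTree V} (h : T.CutRank G t) :
    (blk G (T.leaves : Set V)ᶜ (T.leaves : Set V)).rank ≤ t := by
  cases T with
  | nil => simp [BTree.leaves, blk_empty_cols]
  | leaf v => simpa [BTree.leaves] using h.2
  | node l r => exact h.2.2.2.2

/-- The recursion. `H`: deleted elements, `R`: the open part, `κ`: the classes of the closed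
part. -/
structure Part (G : V → V → F) (t : ℕ) (μ : V → ℕ) (α β : ℕ) (X : Finset V) where
  H : Finset V
  R : Finset V
  κ : V → ℕ
  m : ℕ
  b : ℕ
  d : ℕ
  hH : H ⊆ X
  hR : R ⊆ X
  hHR : ∀ v, v ∈ H → v ∉ R
  hd : (blk G {v | v ∈ X ∧ v ∉ H ∧ v ∉ R} {v | v ∈ R ∨ v ∉ X}).rank ≤ d * t
  hb : ∀ U : Set ℕ, (blk G {v | v ∉ H ∧ ¬ (v ∈ X ∧ v ∉ R ∧ κ v ∈ U)}
    {v | v ∉ H ∧ v ∈ X ∧ v ∉ R ∧ κ v ∈ U}).rank ≤ b * t
  hRw : α * ∑ v ∈ R, μ v ≤ β
  hpiece : ∀ p, α * ∑ v ∈ X.filter (fun v => v ∉ H ∧ v ∉ R ∧ κ v = p), μ v ≤ β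
  hm : β * (m + H.card) ≤ α * ∑ v ∈ X.filter (fun v => v ∉ R), μ v
  hbd : b + d ≤ 3 * m

omit [DecidableEq V] in
lemma rank_le_zero_of_cols (G : V → V → F) (R S : Set V) (h : ∀ v, v ∉ S) (k : ℕ) :
    (blk G R S).rank ≤ k := by
  have : S = ∅ := Set.eq_empty_iff_forall_notMem.2 h
  rw [this, blk_empty_cols]
  exact Nat.zero_le _

omit [DecidableEq V] in
lemma rank_le_zero_of_rows (G : V → V → F) (R S : Set V) (h : ∀ v, v ∉ R) (k : ℕ) :
    (blk G R S).rank ≤ k := by
  have : R = ∅ := Set.eq_empty_iff_forall_notMem.2 h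
  rw [this, blk_empty_rows]
  exact Nat.zero_le _

theorem part_nil (G : V → V → F) (t : ℕ) (μ : V → ℕ) (α β : ℕ) :
    Nonempty (Part G t μ α β ∅) :=
  ⟨{ H := ∅, R := ∅, κ := fun _ => 0, m := 0, b := 0, d := 0
     hH := by simp
     hR := by simp
     hHR := by simp
     hd := rank_le_zero_of_rows _ _ _ (by simp) _
     hb := fun U => rank_le_zero_of_cols _ _ _ (by simp) _
     hRw := by simp
     hpiece := by simp
     hm := by simp
     hbd := by simp }⟩

theorem part_leaf (G : V → V → F) (t : ℕ) (μ : V → ℕ) (α β : ℕ) (v : V) :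
    Nonempty (Part G t μ α β {v}) := by
  by_cases h : α * μ v ≤ β
  · exact ⟨{
      H := ∅, R := {v}, κ := fun _ => 0, m := 0, b := 0, d := 0
      hH := by simp
      hR := by simp
      hHR := by simp
      hd := rank_le_zero_of_rows _ _ _ (by simp) _
      hb := fun U => rank_le_zero_of_cols _ _ _ (by
        intro w hw
        simp only [Set.mem_ofPred_eq, mem_singleton] at hw
        exact hw.2.2.1 hw.2.1) _
      hRw := by simpa using h
      hpiece := by
        intro p
        rw [Finset.filter_eq_empty_iff.2]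
        · simp
        · intro w hw
          simp [hw]
      hm := by simp
      hbd := by simp }⟩
  · push Not at h
    exact ⟨{
      H := {v}, R := ∅, κ := fun _ => 0, m := 0, b := 0, d := 0
      hH := by simp
      hR := by simp
      hHR := by simp
      hd := rank_le_zero_of_rows _ _ _ (by
        intro w hw
        simp only [Set.mem_ofPred_eq, mem_singleton] at hw
        exact hw.2.1 hw.1) _
      hb := fun U => rank_le_zero_of_cols _ _ _ (by
        intro w hw
        simp only [Set.mem_ofPred_eq, mem_singleton] at hw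
        exact hw.1 hw.2.1) _
      hRw := by simp
      hpiece := by
        intro p
        rw [Finset.filter_eq_empty_iff.2]
        · simp
        · intro w hw hw2
          exact hw2.1 hw
      hm := by simpa using h.le
      hbd := by simp }⟩

lemma Part.close {G : V → V → F} {t : ℕ} {μ : V → ℕ} {α β : ℕ} {X : Finset V}
    (P : Part G t μ α β X) (hout : (blk G (X : Set V)ᶜ (X : Set V)).rank ≤ t) (R C : Set V)
    (hC : ∀ v ∈ C, v ∈ P.R) (hR : C.Nonempty → ∀ v ∈ R, v ∉ P.H ∧ v ∉ P.R) :
    (blk G R C).rank ≤ (P.d + 1) * t := by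
  rcases Set.eq_empty_or_nonempty C with hCe | hCne
  · rw [hCe, blk_empty_cols]
    exact Nat.zero_le _
  · have h1 := hR hCne
    refine (blk_rows G R {v | v ∈ X ∧ v ∉ P.H ∧ v ∉ P.R} (X : Set V)ᶜ C ?_).trans ?_
    · intro v hv
      by_cases hvX : v ∈ X
      · exact Or.inl ⟨hvX, h1 v hv⟩
      · exact Or.inr (by simpa using hvX)
    · rw [add_mul, one_mul]
      refine add_le_add (le_trans (blk_mono G subset_rfl ?_) P.hd)
        (le_trans (blk_mono G subset_rfl ?_) hout)
      · intro v hv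
        exact Or.inl (hC v hv)
      · intro v hv
        exact P.hR (hC v hv)

theorem part_node (G : V → V → F) (t : ℕ) (μ : V → ℕ) (α β : ℕ) (Xl Xr : Finset V)
    (hdisj : Disjoint Xl Xr)
    (hin : (blk G ((Xl ∪ Xr : Finset V) : Set V) ((Xl ∪ Xr : Finset V) : Set V)ᶜ).rank ≤ t)
    (houtl : (blk G (Xl : Set V)ᶜ (Xl : Set V)).rank ≤ t)
    (houtr : (blk G (Xr : Set V)ᶜ (Xr : Set V)).rank ≤ t)
    (P : Part G t μ α β Xl) (Q : Part G t μ α β Xr) :
    Nonempty (Part G t μ α β (Xl ∪ Xr)) := by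
  classical
  have dj : ∀ v, v ∈ Xl → v ∉ Xr := fun v h => Finset.disjoint_left.1 hdisj h
  have hHl : ∀ v, v ∈ P.H → v ∈ Xl := fun v h => P.hH h
  have hHr : ∀ v, v ∈ Q.H → v ∈ Xr := fun v h => Q.hH h
  have hRl : ∀ v, v ∈ P.R → v ∈ Xl := fun v h => P.hR h
  have hRr : ∀ v, v ∈ Q.R → v ∈ Xr := fun v h => Q.hR h
  have hHRl := P.hHR
  have hHRr := Q.hHR
  have hcardH : (P.H ∪ Q.H).card ≤ P.H.card + Q.H.card := card_union_le _ _
  have hm1 := P.hm
  have hm2 := Q.hm
  have hb1 := P.hbd
  have hb2 := Q.hbd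
  have hPsum : ∑ v ∈ Xl.filter (fun v => v ∉ P.R), μ v + ∑ v ∈ P.R, μ v = ∑ v ∈ Xl, μ v := by
    rw [← Finset.sum_filter_add_sum_filter_not Xl (fun v => v ∉ P.R)]
    congr 1
    apply Finset.sum_congr _ (fun _ _ => rfl)
    ext v
    simp only [mem_filter, not_not]
    exact ⟨fun h => ⟨hRl v h, h⟩, fun h => h.2⟩
  have hQsum : ∑ v ∈ Xr.filter (fun v => v ∉ Q.R), μ v + ∑ v ∈ Q.R, μ v = ∑ v ∈ Xr, μ v := by
    rw [← Finset.sum_filter_add_sum_filter_not Xr (fun v => v ∉ Q.R)]
    congr 1
    apply Finset.sum_congr _ (fun _ _ => rfl)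
    ext v
    simp only [mem_filter, not_not]
    exact ⟨fun h => ⟨hRr v h, h⟩, fun h => h.2⟩
  by_cases hmerge : α * (∑ v ∈ P.R, μ v + ∑ v ∈ Q.R, μ v) ≤ β
  · refine ⟨{
      H := P.H ∪ Q.H, R := P.R ∪ Q.R
      κ := fun v => if v ∈ Xl then 2 * P.κ v else 2 * Q.κ v + 1
      m := P.m + Q.m, b := P.b + Q.b, d := P.d + Q.d
      hH := union_subset_union P.hH Q.hH
      hR := union_subset_union P.hR Q.hR
      hHR := ?_, hd := ?_, hb := ?_, hRw := ?_, hpiece := ?_, hm := ?_, hbd := by omega }⟩
    · intro v hv hv'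
      rcases mem_union.1 hv with h | h
      · rcases mem_union.1 hv' with h' | h'
        · exact hHRl v h h'
        · exact dj v (hHl v h) (hRr v h')
      · rcases mem_union.1 hv' with h' | h'
        · exact dj v (hRl v h') (hHr v h)
        · exact hHRr v h h'
    · rw [add_mul]
      refine (blk_rows G _ {v | v ∈ Xl ∧ v ∉ P.H ∧ v ∉ P.R} {v | v ∈ Xr ∧ v ∉ Q.H ∧ v ∉ Q.R} _
        ?_).trans (add_le_add (le_trans (blk_mono G subset_rfl ?_) P.hd)
          (le_trans (blk_mono G subset_rfl ?_) Q.hd))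
      · intro v hv
        simp only [Set.mem_ofPred_eq, mem_union, Set.mem_union, not_or] at hv ⊢
        obtain ⟨h1, ⟨h2, h2'⟩, h3, h3'⟩ := hv
        rcases h1 with h1 | h1
        · exact Or.inl ⟨h1, h2, h3⟩
        · exact Or.inr ⟨h1, h2', h3'⟩
      · intro v hv
        simp only [Set.mem_ofPred_eq, mem_union, not_or] at hv ⊢
        rcases hv with (h | h) | h
        · exact Or.inl h
        · exact Or.inr (fun h' => dj v h' (hRr v h))
        · exact Or.inr h.1
      · intro v hv
        simp only [Set.mem_ofPred_eq, mem_union, not_or] at hv ⊢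
        rcases hv with (h | h) | h
        · exact Or.inr (fun h' => dj v (hRl v h) h')
        · exact Or.inl h
        · exact Or.inr h.2
    · intro U
      rw [add_mul]
      refine (blk_cols G _ _ {v | v ∉ P.H ∧ v ∈ Xl ∧ v ∉ P.R ∧ P.κ v ∈ {q | 2 * q ∈ U}}
        {v | v ∉ Q.H ∧ v ∈ Xr ∧ v ∉ Q.R ∧ Q.κ v ∈ {q | 2 * q + 1 ∈ U}}
        ?_).trans (add_le_add (le_trans (blk_mono G ?_ subset_rfl) (P.hb {q | 2 * q ∈ U}))
          (le_trans (blk_mono G ?_ subset_rfl) (Q.hb {q | 2 * q + 1 ∈ U})))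
      · intro v hv
        simp only [Set.mem_ofPred_eq, mem_union, Set.mem_union, not_or] at hv ⊢
        obtain ⟨⟨h1, h1'⟩, h2, ⟨h3, h3'⟩, h4⟩ := hv
        by_cases hvl : v ∈ Xl
        · rw [if_pos hvl] at h4
          exact Or.inl ⟨h1, hvl, h3, h4⟩
        · rw [if_neg hvl] at h4
          exact Or.inr ⟨h1', h2.resolve_left hvl, h3', h4⟩
      · intro v hv
        simp only [Set.mem_ofPred_eq, mem_union] at hv ⊢
        refine ⟨fun h => hv.1 (Or.inl h), ?_⟩
        rintro ⟨h1, h2, h3⟩
        apply hv.2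
        rw [if_pos h1]
        exact ⟨Or.inl h1, fun h => h.elim h2 (fun h => dj v h1 (hRr v h)), h3⟩
      · intro v hv
        simp only [Set.mem_ofPred_eq, mem_union] at hv ⊢
        refine ⟨fun h => hv.1 (Or.inr h), ?_⟩
        rintro ⟨h1, h2, h3⟩
        apply hv.2
        rw [if_neg (fun h => dj v h h1)]
        exact ⟨Or.inr h1, fun h => h.elim (fun h => dj v (hRl v h) h1) h2, h3⟩
    · refine le_trans (Nat.mul_le_mul_left α ?_) hmerge
      rw [Finset.sum_union]
      rw [Finset.disjoint_left]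
      intro v h1 h2
      exact dj v (hRl v h1) (hRr v h2)
    · intro p
      rcases Nat.even_or_odd' p with ⟨q, hq | hq⟩
      · refine le_trans (Nat.mul_le_mul_left α ?_) (P.hpiece q)
        apply Finset.sum_le_sum_of_subset
        intro v hv
        simp only [mem_filter, mem_union, not_or] at hv ⊢
        obtain ⟨h2, ⟨h1, h1'⟩, ⟨h3, h3'⟩, h4⟩ := hv
        by_cases hvl : v ∈ Xl
        · rw [if_pos hvl] at h4
          exact ⟨hvl, h1, h3, by omega⟩
        · rw [if_neg hvl] at h4
          omega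
      · refine le_trans (Nat.mul_le_mul_left α ?_) (Q.hpiece q)
        apply Finset.sum_le_sum_of_subset
        intro v hv
        simp only [mem_filter, mem_union, not_or] at hv ⊢
        obtain ⟨h2, ⟨h1, h1'⟩, ⟨h3, h3'⟩, h4⟩ := hv
        by_cases hvl : v ∈ Xl
        · rw [if_pos hvl] at h4
          omega
        · rw [if_neg hvl] at h4
          exact ⟨h2.resolve_left hvl, h1', h3', by omega⟩
    · have h1 : ∑ v ∈ Xl.filter (fun v => v ∉ P.R), μ v + ∑ v ∈ Xr.filter (fun v => v ∉ Q.R), μ v ≤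
          ∑ v ∈ (Xl ∪ Xr).filter (fun v => v ∉ P.R ∪ Q.R), μ v := by
        rw [← Finset.sum_union]
        · apply Finset.sum_le_sum_of_subset
          intro v hv
          simp only [mem_filter, mem_union, not_or] at hv ⊢
          rcases hv with ⟨h1, h2⟩ | ⟨h1, h2⟩
          · exact ⟨Or.inl h1, h2, fun h => dj v h1 (hRr v h)⟩
          · exact ⟨Or.inr h1, fun h => dj v (hRl v h) h1, h2⟩
        · rw [Finset.disjoint_left]
          intro v h1 h2
          exact dj v (mem_filter.1 h1).1 (mem_filter.1 h2).1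
      calc β * (P.m + Q.m + (P.H ∪ Q.H).card) ≤ β * (P.m + Q.m + (P.H.card + Q.H.card)) := by
            gcongr
        _ = β * (P.m + P.H.card) + β * (Q.m + Q.H.card) := by ring
        _ ≤ α * ∑ v ∈ Xl.filter (fun v => v ∉ P.R), μ v +
            α * ∑ v ∈ Xr.filter (fun v => v ∉ Q.R), μ v := add_le_add hm1 hm2
        _ = α * (∑ v ∈ Xl.filter (fun v => v ∉ P.R), μ v +
            ∑ v ∈ Xr.filter (fun v => v ∉ Q.R), μ v) := by ring
        _ ≤ _ := Nat.mul_le_mul_left _ h1
  · push Not at hmerge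
    refine ⟨{
      H := P.H ∪ Q.H, R := ∅
      κ := fun v => if v ∈ Xl then (if v ∈ P.R then 0 else 2 * P.κ v + 2) else
        (if v ∈ Q.R then 1 else 2 * Q.κ v + 3)
      m := P.m + Q.m + 1, b := P.b + Q.b + ((P.d + 1) + (Q.d + 1)), d := 1
      hH := union_subset_union P.hH Q.hH
      hR := by simp
      hHR := by simp
      hd := ?_, hb := ?_, hRw := by simp, hpiece := ?_, hm := ?_, hbd := by omega }⟩
    · rw [one_mul]
      refine le_trans (blk_mono G ?_ ?_) hin
      · intro v hv
        exact hv.1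
      · intro v hv
        rcases hv with hv | hv
        · simp at hv
        · simpa using hv
    · intro U
      have hS : (blk G {v | v ∉ P.H ∪ Q.H ∧ ¬ (v ∈ Xl ∪ Xr ∧ v ∉ (∅ : Finset V) ∧
            (if v ∈ Xl then (if v ∈ P.R then 0 else 2 * P.κ v + 2) else
              (if v ∈ Q.R then 1 else 2 * Q.κ v + 3)) ∈ U)}
          ({v | v ∉ P.H ∧ v ∈ Xl ∧ v ∉ P.R ∧ P.κ v ∈ {q | 2 * q + 2 ∈ U}} ∪
            {v | v ∉ Q.H ∧ v ∈ Xr ∧ v ∉ Q.R ∧ Q.κ v ∈ {q | 2 * q + 3 ∈ U}})).rank ≤
          P.b * t + Q.b * t := by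
        refine (blk_cols G _ _ _ _ subset_rfl).trans
          (add_le_add (le_trans (blk_mono G ?_ subset_rfl) (P.hb {q | 2 * q + 2 ∈ U}))
            (le_trans (blk_mono G ?_ subset_rfl) (Q.hb {q | 2 * q + 3 ∈ U})))
        · intro v hv
          simp only [Set.mem_ofPred_eq, mem_union, Finset.notMem_empty, not_false_eq_true,
            true_and] at hv ⊢
          refine ⟨fun h => hv.1 (Or.inl h), ?_⟩
          rintro ⟨h1, h2, h3⟩
          apply hv.2
          rw [if_pos h1, if_neg h2]
          exact ⟨Or.inl h1, h3⟩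
        · intro v hv
          simp only [Set.mem_ofPred_eq, mem_union, Finset.notMem_empty, not_false_eq_true,
            true_and] at hv ⊢
          refine ⟨fun h => hv.1 (Or.inr h), ?_⟩
          rintro ⟨h1, h2, h3⟩
          apply hv.2
          rw [if_neg (fun h => dj v h h1), if_neg h2]
          exact ⟨Or.inr h1, h3⟩
      have hT1 : (blk G {v | v ∉ P.H ∪ Q.H ∧ ¬ (v ∈ Xl ∪ Xr ∧ v ∉ (∅ : Finset V) ∧
            (if v ∈ Xl then (if v ∈ P.R then 0 else 2 * P.κ v + 2) else
              (if v ∈ Q.R then 1 else 2 * Q.κ v + 3)) ∈ U)}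
          {v | v ∈ P.R ∧ 0 ∈ U}).rank ≤ (P.d + 1) * t := by
        apply P.close houtl
        · intro v hv
          exact hv.1
        · rintro ⟨w, hw⟩ v hv
          simp only [Set.mem_ofPred_eq, mem_union, Finset.notMem_empty, not_false_eq_true,
            true_and] at hv hw
          refine ⟨fun h => hv.1 (Or.inl h), fun h => hv.2 ?_⟩
          rw [if_pos (hRl v h), if_pos h]
          exact ⟨Or.inl (hRl v h), hw.2⟩
      have hT2 : (blk G {v | v ∉ P.H ∪ Q.H ∧ ¬ (v ∈ Xl ∪ Xr ∧ v ∉ (∅ : Finset V) ∧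
            (if v ∈ Xl then (if v ∈ P.R then 0 else 2 * P.κ v + 2) else
              (if v ∈ Q.R then 1 else 2 * Q.κ v + 3)) ∈ U)}
          {v | v ∈ Q.R ∧ 1 ∈ U}).rank ≤ (Q.d + 1) * t := by
        apply Q.close houtr
        · intro v hv
          exact hv.1
        · rintro ⟨w, hw⟩ v hv
          simp only [Set.mem_ofPred_eq, mem_union, Finset.notMem_empty, not_false_eq_true,
            true_and] at hv hw
          refine ⟨fun h => hv.1 (Or.inr h), fun h => hv.2 ?_⟩
          rw [if_neg (fun h' => dj v h' (hRr v h)), if_pos h]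
          exact ⟨Or.inr (hRr v h), hw.2⟩
      have hT := (blk_cols G {v | v ∉ P.H ∪ Q.H ∧ ¬ (v ∈ Xl ∪ Xr ∧ v ∉ (∅ : Finset V) ∧
            (if v ∈ Xl then (if v ∈ P.R then 0 else 2 * P.κ v + 2) else
              (if v ∈ Q.R then 1 else 2 * Q.κ v + 3)) ∈ U)}
          ({v | v ∈ P.R ∧ 0 ∈ U} ∪ {v | v ∈ Q.R ∧ 1 ∈ U}) _ _ subset_rfl).trans
        (add_le_add hT1 hT2)
      refine (blk_cols G _ _ _ _ ?_).trans ((add_le_add hS hT).trans (le_of_eq (by ring)))
      intro v hv
      simp only [Set.mem_ofPred_eq, mem_union, Finset.notMem_empty, not_false_eq_true,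
            true_and] at hv
      obtain ⟨h1, h2, h3⟩ := hv
      rw [not_or] at h1
      by_cases hvl : v ∈ Xl
      · rw [if_pos hvl] at h3
        by_cases hvR : v ∈ P.R
        · rw [if_pos hvR] at h3
          exact Or.inr (Or.inl ⟨hvR, h3⟩)
        · rw [if_neg hvR] at h3
          exact Or.inl (Or.inl ⟨h1.1, hvl, hvR, h3⟩)
      · have hvr : v ∈ Xr := h2.resolve_left hvl
        rw [if_neg hvl] at h3
        by_cases hvR : v ∈ Q.R
        · rw [if_pos hvR] at h3
          exact Or.inr (Or.inr ⟨hvR, h3⟩)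
        · rw [if_neg hvR] at h3
          exact Or.inl (Or.inr ⟨h1.2, hvr, hvR, h3⟩)
    · intro p
      have hcase : p = 0 ∨ p = 1 ∨ (∃ q, p = 2 * q + 2) ∨ ∃ q, p = 2 * q + 3 := by
        rcases Nat.even_or_odd' p with ⟨q, hq | hq⟩
        · rcases Nat.eq_zero_or_pos q with h | h
          · left; omega
          · right; right; left; exact ⟨q - 1, by omega⟩
        · rcases Nat.eq_zero_or_pos q with h | h
          · right; left; omega
          · right; right; right; exact ⟨q - 1, by omega⟩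
      rcases hcase with hp | hp | ⟨q, hp⟩ | ⟨q, hp⟩
      · refine le_trans (Nat.mul_le_mul_left α ?_) P.hRw
        apply Finset.sum_le_sum_of_subset
        intro v hv
        simp only [mem_filter, mem_union, Finset.notMem_empty, not_false_eq_true, true_and] at hv
        obtain ⟨h1, h2, h3⟩ := hv
        by_cases hvl : v ∈ Xl
        · rw [if_pos hvl] at h3
          by_contra hvR
          rw [if_neg hvR] at h3
          omega
        · rw [if_neg hvl] at h3
          split_ifs at h3 <;> omega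
      · refine le_trans (Nat.mul_le_mul_left α ?_) Q.hRw
        apply Finset.sum_le_sum_of_subset
        intro v hv
        simp only [mem_filter, mem_union, Finset.notMem_empty, not_false_eq_true, true_and] at hv
        obtain ⟨h1, h2, h3⟩ := hv
        by_cases hvl : v ∈ Xl
        · rw [if_pos hvl] at h3
          split_ifs at h3 <;> omega
        · rw [if_neg hvl] at h3
          by_contra hvR
          rw [if_neg hvR] at h3
          omega
      · refine le_trans (Nat.mul_le_mul_left α ?_) (P.hpiece q)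
        apply Finset.sum_le_sum_of_subset
        intro v hv
        simp only [mem_filter, mem_union, Finset.notMem_empty, not_false_eq_true, true_and] at hv ⊢
        obtain ⟨h1, h2, h3⟩ := hv
        by_cases hvl : v ∈ Xl
        · rw [if_pos hvl] at h3
          by_cases hvR : v ∈ P.R
          · rw [if_pos hvR] at h3
            omega
          · rw [if_neg hvR] at h3
            exact ⟨hvl, fun h => h2 (Or.inl h), hvR, by omega⟩
        · rw [if_neg hvl] at h3
          split_ifs at h3 <;> omega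
      · refine le_trans (Nat.mul_le_mul_left α ?_) (Q.hpiece q)
        apply Finset.sum_le_sum_of_subset
        intro v hv
        simp only [mem_filter, mem_union, Finset.notMem_empty, not_false_eq_true, true_and] at hv ⊢
        obtain ⟨h1, h2, h3⟩ := hv
        by_cases hvl : v ∈ Xl
        · rw [if_pos hvl] at h3
          split_ifs at h3 <;> omega
        · have hvr : v ∈ Xr := h1.resolve_left hvl
          rw [if_neg hvl] at h3
          by_cases hvR : v ∈ Q.R
          · rw [if_pos hvR] at h3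
            omega
          · rw [if_neg hvR] at h3
            exact ⟨hvr, fun h => h2 (Or.inr h), hvR, by omega⟩
    · have h1 : ∑ v ∈ (Xl ∪ Xr).filter (fun v => v ∉ (∅ : Finset V)), μ v =
          ∑ v ∈ Xl, μ v + ∑ v ∈ Xr, μ v := by
        rw [Finset.filter_true_of_mem (by simp), Finset.sum_union hdisj]
      rw [h1, ← hPsum, ← hQsum]
      calc β * (P.m + Q.m + 1 + (P.H ∪ Q.H).card)
          ≤ β * (P.m + Q.m + 1 + (P.H.card + Q.H.card)) := by gcongr
        _ = β * (P.m + P.H.card) + β * (Q.m + Q.H.card) + β := by ring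
        _ ≤ α * ∑ v ∈ Xl.filter (fun v => v ∉ P.R), μ v +
            α * ∑ v ∈ Xr.filter (fun v => v ∉ Q.R), μ v +
            α * (∑ v ∈ P.R, μ v + ∑ v ∈ Q.R, μ v) := add_le_add (add_le_add hm1 hm2) hmerge.le
        _ = _ := by ring

theorem exists_part (G : V → V → F) (t : ℕ) (μ : V → ℕ) (α β : ℕ) :
    ∀ T : BTree V, T.CutRank G t → Nonempty (Part G t μ α β T.leaves)
  | .nil, _ => part_nil G t μ α β
  | .leaf v, _ => part_leaf G t μ α β v
  | .node l r, h => by
    obtain ⟨P⟩ := exists_part G t μ α β l h.1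
    obtain ⟨Q⟩ := exists_part G t μ α β r h.2.1
    exact part_node G t μ α β l.leaves r.leaves h.2.2.1 h.2.2.2.1 h.1.out_rank h.2.1.out_rank P Q

/-- A matrix of small rank-width with weights can be cut into light classes whose unions all have
low-rank cuts. -/
theorem exists_classes (G : V → V → F) (t : ℕ) (h : RankWidthLe G t) (μ : V → ℕ) (α β : ℕ) :
    ∃ (S : Finset V) (κ : V → ℕ) (m : ℕ),
      (∀ p, α * ∑ v ∈ univ.filter (fun v => v ∉ S ∧ κ v = p), μ v ≤ β) ∧
      (∀ U : Set ℕ, (blk G {g | g ∉ S ∧ κ g ∉ U} {g | g ∉ S ∧ κ g ∈ U}).rank ≤ 3 * m * t) ∧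
      β * (m + S.card) ≤ α * ∑ v, μ v := by
  classical
  obtain ⟨T, hT, hcut⟩ := h
  obtain ⟨P⟩ := exists_part G t μ α β T hcut
  rw [hT] at P
  refine ⟨P.H, fun v => if v ∈ P.R then 0 else P.κ v + 1, P.m, ?_, ?_, ?_⟩
  · intro p
    rcases Nat.eq_zero_or_pos p with hp | hp
    · refine le_trans (Nat.mul_le_mul_left α ?_) P.hRw
      apply Finset.sum_le_sum_of_subset
      intro v hv
      obtain ⟨h1, h2, h3⟩ := mem_filter.1 hv
      by_contra hvR
      simp only [if_neg hvR] at h3
      omega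
    · refine le_trans (Nat.mul_le_mul_left α ?_) (P.hpiece (p - 1))
      apply Finset.sum_le_sum_of_subset
      intro v hv
      rw [mem_filter] at hv ⊢
      obtain ⟨h1, h2, h3⟩ := hv
      by_cases hvR : v ∈ P.R
      · simp only [if_pos hvR] at h3
        omega
      · simp only [if_neg hvR] at h3
        exact ⟨h1, h2, hvR, by omega⟩
  · intro U
    have e : (blk G {g | g ∉ P.H ∧ (if g ∈ P.R then 0 else P.κ g + 1) ∉ U}
        {g | g ∉ P.H ∧ (if g ∈ P.R then 0 else P.κ g + 1) ∈ U}).rank ≤ P.b * t + P.d * t := by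
      refine (blk_cols G _ _ {v | v ∉ P.H ∧ v ∈ univ ∧ v ∉ P.R ∧ P.κ v ∈ {q | q + 1 ∈ U}}
        {v | v ∈ P.R ∧ 0 ∈ U} ?_).trans (add_le_add
          (le_trans (blk_mono G ?_ subset_rfl) (P.hb {q | q + 1 ∈ U})) ?_)
      · intro v hv
        obtain ⟨h1, h2⟩ := hv
        by_cases hvR : v ∈ P.R
        · rw [if_pos hvR] at h2
          exact Or.inr ⟨hvR, h2⟩
        · rw [if_neg hvR] at h2
          exact Or.inl ⟨h1, mem_univ _, hvR, h2⟩
      · intro v hv
        obtain ⟨h1, h2⟩ := hv
        refine ⟨h1, ?_⟩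
        rintro ⟨h3, h4, h5⟩
        rw [if_neg h4] at h2
        exact h2 h5
      · by_cases h0 : 0 ∈ U
        · refine le_trans (blk_mono G ?_ ?_) P.hd
          · intro v hv
            obtain ⟨h1, h2⟩ := hv
            refine ⟨mem_univ _, h1, fun h3 => ?_⟩
            rw [if_pos h3] at h2
            exact h2 h0
          · intro v hv
            exact Or.inl hv.1
        · exact rank_le_zero_of_cols _ _ _ (fun v hv => h0 hv.2) _
    refine e.trans ?_
    rw [← add_mul]
    exact Nat.mul_le_mul_right _ P.hbd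
  · refine P.hm.trans (Nat.mul_le_mul_left _ ?_)
    exact Finset.sum_le_sum_of_subset (filter_subset _ _)

end Pool.Agent.TH483.Io
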