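import Mathlib
import Pool.Agent.TH483.Io.Cut2
import Pool.Agent.TH483.Io.RTree
import Pool.Agent.TH483.Io.Asym

/-!
# Linear circuits whose inner gates have small rank-width
-/

set_option autoImplicit false

open Finset

namespace Pool.Agent.TH483.Io

/-- The bound for small rank-width. -/
theorem rank_bound {F : Type} [Field F] {n : ℕ} (C : IOCircuit F n)
    (A B : Matrix (Fin n) (Fin n) F) (hA : MinorsNonzero A)
    (hC : C.Computes B) (t : ℕ) (hT : RankWidthLe C.gg t) (c : ℕ)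
    (hc : C.inputEdges + C.outputEdges ≤ c * n) :
    n ≤ 2 ^ c * (2 * (A - B).rank + c ^ 2 * (c + 1) * (3 * t + 1)) := by
  rcases Nat.eq_zero_or_pos n with h0 | h0
  · exact h0.le.trans (Nat.zero_le _)
  by_cases hcn : n < c * (c + 1)
  · have h1 : 1 ≤ 2 ^ c := Nat.one_le_two_pow
    have hc0 : 1 ≤ c := by
      rcases Nat.eq_zero_or_pos c with h | h
      · rw [h] at hcn; simp at hcn
      · exact h
    have h2 : c * (c + 1) ≤ c ^ 2 * (c + 1) * (3 * t + 1) := by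
      have h3 : c ≤ c ^ 2 := by nlinarith
      calc c * (c + 1) ≤ (c ^ 2) * (c + 1) := Nat.mul_le_mul_right _ h3
        _ = c ^ 2 * (c + 1) * 1 := by ring
        _ ≤ _ := Nat.mul_le_mul_left _ (by omega)
    calc n ≤ 1 * (c * (c + 1)) := by omega
      _ ≤ 2 ^ c * (2 * (A - B).rank + c ^ 2 * (c + 1) * (3 * t + 1)) :=
        Nat.mul_le_mul h1 (h2.trans (Nat.le_add_left _ _))
  push Not at hcn
  obtain ⟨S, κ, m, h1, h2, h3⟩ := exists_classes C.gg t hT C.ioDeg (c * (c + 1)) (2 * n)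
  have hmain := module_bound C A B hA hC S κ c (3 * m * t) h1 h2 hcn hc
  have h4 : 2 * (m + S.card) ≤ c ^ 2 * (c + 1) := by
    have h5 : n * (2 * (m + S.card)) ≤ n * (c ^ 2 * (c + 1)) := by
      calc n * (2 * (m + S.card)) = 2 * n * (m + S.card) := by ring
        _ ≤ c * (c + 1) * ∑ v, C.ioDeg v := h3
        _ ≤ c * (c + 1) * (c * n) := Nat.mul_le_mul_left _ ((ioDeg_sum C).trans hc)
        _ = n * (c ^ 2 * (c + 1)) := by ring
    exact Nat.le_of_mul_le_mul_left h5 h0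
  have h5 : 2 * (S.card + 3 * m * t) ≤ c ^ 2 * (c + 1) * (3 * t + 1) := by
    calc 2 * (S.card + 3 * m * t) ≤ 2 * (m + S.card) * (3 * t + 1) := by
          have : 2 * (m + S.card) * (3 * t + 1) =
            2 * (S.card + 3 * m * t) + (2 * m + 6 * (S.card * t)) := by ring
          omega
      _ ≤ _ := Nat.mul_le_mul_right _ h4
  calc n ≤ 2 ^ (c + 1) * (S.card + ((A - B).rank + 3 * m * t)) := hmain
    _ = 2 ^ c * (2 * (A - B).rank + 2 * (S.card + 3 * m * t)) := by ring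
    _ ≤ _ := Nat.mul_le_mul_left _ (Nat.add_le_add_left h5 _)

/-- From the bounds for all `c` to the asymptotic form. -/
theorem asym_gen (ε : ℝ) (hε : 0 < ε) : ∃ K : ℝ, 0 < K ∧ ∀ (n s L : ℕ), 1 ≤ s →
    (∀ c : ℕ, L ≤ c * n → n ≤ 2 ^ c * (5 * (c + 1) ^ 3 * s)) → K * s ≤ n →
    (1 - ε) * (n * Real.logb 2 (n / s)) ≤ L := by
  set ε' := min ε 1 with hε'
  have hε'0 : 0 < ε' := lt_min hε one_pos
  have hε'1 : ε' ≤ 1 := min_le_right _ _
  refine ⟨2 ^ ((20 / ε') ^ 2), by positivity, ?_⟩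
  intro n s L hs1 hmain hK
  have hs0 : (0 : ℝ) < s := by exact_mod_cast hs1
  have hK1 : (1 : ℝ) ≤ 2 ^ ((20 / ε') ^ 2) := Real.one_le_rpow (by norm_num) (by positivity)
  have hsn : (s : ℝ) ≤ n := by nlinarith
  have hn0 : (0 : ℝ) < n := lt_of_lt_of_le hs0 hsn
  have hn1 : 1 ≤ n := by
    have : (0 : ℕ) < n := by exact_mod_cast hn0
    omega
  set y := Real.logb 2 (n / s) with hy
  have hy1 : (20 / ε') ^ 2 ≤ y := by
    rw [hy, Real.le_logb_iff_rpow_le (by norm_num) (by positivity), le_div_iff₀ hs0]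
    exact hK
  -- the integer `c`
  set c := (L + n - 1) / n with hc
  have hcL : L ≤ c * n := by
    have h1 := Nat.div_add_mod (L + n - 1) n
    have h2 := Nat.mod_lt (L + n - 1) hn1
    rw [← hc] at h1
    have h3 : n * c = c * n := mul_comm _ _
    omega
  have hcU : c * n ≤ L + n := by
    have h1 := Nat.div_mul_le_self (L + n - 1) n
    rw [← hc] at h1
    omega
  have h1 := hmain c hcL
  have h2 : (n : ℝ) / s ≤ 2 ^ c * (5 * (c + 1) ^ 3) := by
    rw [div_le_iff₀ hs0]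
    have : (n : ℝ) ≤ 2 ^ c * (5 * (c + 1) ^ 3 * s) := by exact_mod_cast h1
    linarith
  have h3 : y ≤ c + Real.logb 2 5 + 3 * Real.logb 2 (c + 1) := by
    have e1 : y ≤ Real.logb 2 (2 ^ c * (5 * (c + 1) ^ 3)) :=
      Real.logb_le_logb_of_le (by norm_num) (by positivity) h2
    have hc1 : ((c : ℝ) + 1) ≠ 0 := by positivity
    rw [Real.logb_mul (by positivity) (by positivity), Real.logb_mul (by norm_num) (by positivity),
      Real.logb_pow, Real.logb_pow, Real.logb_self_eq_one (by norm_num)] at e1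
    push_cast at e1
    linarith
  have h5 : Real.logb 2 5 ≤ 3 := by
    rw [Real.logb_le_iff_le_rpow (by norm_num) (by norm_num)]
    norm_num
  set x : ℝ := L / n with hx
  have hcx : (c : ℝ) ≤ x + 1 := by
    rw [hx, div_add_one hn0.ne', le_div_iff₀ hn0]
    exact_mod_cast hcU
  have hx0 : 0 ≤ x := by positivity
  have h6 : Real.logb 2 (c + 1) ≤ Real.logb 2 (x + 2) :=
    Real.logb_le_logb_of_le (by norm_num) (by positivity) (by linarith)
  have h7 := real_step ε' hε'0 hε'1 y x hy1 hx0 (by linarith)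
  have hy0 : 0 ≤ y := le_trans (by positivity) hy1
  have h8 : (1 - ε) * y ≤ x := by
    refine le_trans (mul_le_mul_of_nonneg_right ?_ hy0) h7
    have : ε' ≤ ε := min_le_left _ _
    linarith
  calc (1 - ε) * (n * y) = n * ((1 - ε) * y) := by ring
    _ ≤ n * x := mul_le_mul_of_nonneg_left h8 hn0.le
    _ = L := by rw [hx]; field_simp

/-- The asymptotic form for small rank-width. -/
theorem rank_asym (ε : ℝ) (hε : 0 < ε) : ∃ K : ℝ, 0 < K ∧ ∀ (F : Type) [Field F] (n : ℕ)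
    (C : IOCircuit F n) (A B : Matrix (Fin n) (Fin n) F), MinorsNonzero A →
    C.Computes B → ∀ t : ℕ, RankWidthLe C.gg t →
    K * (t + 1 + (A - B).rank : ℕ) ≤ n →
    (1 - ε) * (n * Real.logb 2 (n / (t + 1 + (A - B).rank : ℕ))) ≤
      (C.inputEdges + C.outputEdges : ℕ) := by
  obtain ⟨K, hK, h⟩ := asym_gen ε hε
  refine ⟨K, hK, ?_⟩
  intro F _ n C A B hA hC t hT hs
  refine h n (t + 1 + (A - B).rank) _ (by omega) ?_ hs
  intro c hc
  refine (rank_bound C A B hA hC t hT c hc).trans (Nat.mul_le_mul_left _ ?_)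
  generalize (A - B).rank = ρ
  have e1 : 2 * ρ ≤ 2 * (c + 1) ^ 3 * (t + 1 + ρ) := by
    have : 1 ≤ (c + 1) ^ 3 := Nat.one_le_pow _ _ (Nat.succ_pos c)
    calc 2 * ρ = 2 * 1 * ρ := by ring
      _ ≤ 2 * (c + 1) ^ 3 * (t + 1 + ρ) := by gcongr; omega
  have e2 : c ^ 2 * (c + 1) * (3 * t + 1) ≤ 3 * (c + 1) ^ 3 * (t + 1 + ρ) := by
    calc c ^ 2 * (c + 1) * (3 * t + 1) ≤ (c + 1) ^ 2 * (c + 1) * (3 * (t + 1 + ρ)) := by
          gcongr <;> omega
      _ = 3 * (c + 1) ^ 3 * (t + 1 + ρ) := by ring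
  calc 2 * ρ + c ^ 2 * (c + 1) * (3 * t + 1) ≤
        2 * (c + 1) ^ 3 * (t + 1 + ρ) + 3 * (c + 1) ^ 3 * (t + 1 + ρ) := add_le_add e1 e2
    _ = 5 * (c + 1) ^ 3 * (t + 1 + ρ) := by ring

end Pool.Agent.TH483.Io
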